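import Mathlib

set_option autoImplicit false

/-!
# Newton covering number and right pyramids over cubes: definitions
-/

namespace Pool.Agent.R168.Newton

/-- Euclidean `d`-space. -/
abbrev E (d : ℕ) : Type := EuclideanSpace ℝ (Fin d)

/-- The union of some `n` congruent copies of `C` (images of `C` under isometries of the whole
space) contains an open set that contains `C`. -/
def Covers {d : ℕ} (C : Set (E d)) (n : ℕ) : Prop :=
  ∃ (g : Fin n → (E d ≃ᵢ E d)) (U : Set (E d)), IsOpen U ∧ C ⊆ U ∧ U ⊆ ⋃ i, g i '' C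

/-- The Newton covering number `N*(C)`: the least `n` such that some `n` congruent copies of `C`
cover a neighbourhood of `C`. -/
noncomputable def newton {d : ℕ} (C : Set (E d)) : ℕ := sInf {n : ℕ | Covers C n}

/-- The unit cube `C^k = [0,1]^k`. -/
def cube (k : ℕ) : Set (E k) := {x | ∀ i, 0 ≤ x i ∧ x i ≤ 1}

/-- The base `[0,1]^k × {0}` of the pyramid in `ℝ^(k+1)`. -/
def base (k : ℕ) : Set (E (k + 1)) :=
  {x | (∀ i : Fin k, 0 ≤ x i.castSucc ∧ x i.castSucc ≤ 1) ∧ x (Fin.last k) = 0}

/-- The apex `(1/2, …, 1/2, h)` of the pyramid in `ℝ^(k+1)`. -/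
noncomputable def apex (k : ℕ) (h : ℝ) : E (k + 1) :=
  WithLp.toLp 2 (Fin.snoc (α := fun _ => ℝ) (fun _ : Fin k => (1 / 2 : ℝ)) h)

/-- The right pyramid `P^(k+1)(h)` of height `h` over the unit cube `[0,1]^k`: the convex hull of
the base and the apex in `ℝ^(k+1)`. -/
noncomputable def pyramid (k : ℕ) (h : ℝ) : Set (E (k + 1)) :=
  convexHull ℝ (base k ∪ {apex k h})

end Pool.Agent.R168.Newton
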