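import Mathlib
import Pool.Agent.Helper2.NewtonCover
import Pool.Agent.Helper2.NewtonSmooth
import Pool.Agent.R168.NewtonDefs

set_option autoImplicit false

/-!
# Newton covering number of right pyramids over cubes
-/

namespace Pool.Agent.R168.Newton

open Set Metric Finset

theorem covers_iff {d : ℕ} (C : Set (E d)) (n : ℕ) :
    Covers C n ↔ Pool.Agent.Helper2.NewtonCover.Covers C n := Iff.rfl

/-- One illumination direction and one further copy. -/
theorem cover_two {d : ℕ} {C : Set (E d)} (hc : Convex ℝ C) (hk : IsCompact C) {v : E d}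
    (g : E d ≃ᵢ E d)
    (h : ∀ p ∈ C, (∃ t : ℝ, 0 < t ∧ p + t • v ∈ interior C) ∨ p ∈ interior (g '' C)) :
    Covers C 2 := by
  let s : ℕ → ℝ := fun n => 1 / ((n : ℝ) + 1)
  have hs0 : ∀ n, 0 < s n := fun n => by positivity
  let W : ℕ → Set (E d) := fun n => (fun p => p + s n • v) ⁻¹' interior C
  have hWo : ∀ n, IsOpen (W n) := fun n => isOpen_interior.preimage (by fun_prop)
  have hWm : ∀ p ∈ C, ∀ t : ℝ, p + t • v ∈ interior C → ∀ n, 0 < t → s n ≤ t → p ∈ W n := by
    intro p hp t ht n ht0 hle
    have := hc.add_smul_mem_interior hp ht (t := s n / t)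
      ⟨by have := hs0 n; positivity, by rw [div_le_one ht0]; exact hle⟩
    have h2 : (s n / t) • (t • v) = s n • v := by
      rw [smul_smul, div_mul_cancel₀ _ ht0.ne']
    rw [h2] at this
    exact this
  let U : ℕ → Set (E d) := fun n => W n ∪ interior (g '' C)
  have hUo : ∀ n, IsOpen (U n) := fun n => (hWo n).union isOpen_interior
  have hsmall : ∀ t : ℝ, 0 < t → ∃ n, s n ≤ t := by
    intro t ht
    obtain ⟨n, hn⟩ := exists_nat_one_div_lt ht
    exact ⟨n, hn.le⟩
  have hcov : C ⊆ ⋃ n, U n := by
    intro p hp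
    rcases h p hp with ⟨t, ht, hin⟩ | hin
    · obtain ⟨n, hn⟩ := hsmall t ht
      exact mem_iUnion.2 ⟨n, Or.inl (hWm p hp t hin n ht hn)⟩
    · exact mem_iUnion.2 ⟨0, Or.inr hin⟩
  obtain ⟨T, hT⟩ := hk.elim_finite_subcover U hUo hcov
  set N := T.sup id with hN
  have hsmono : ∀ m n, m ≤ n → s n ≤ s m := by
    intro m n hmn
    exact Nat.one_div_le_one_div hmn
  have hCU : C ⊆ U N := by
    intro p hp
    obtain ⟨n, hn⟩ := mem_iUnion.1 (hT hp)
    obtain ⟨hnT, hpn⟩ := mem_iUnion.1 hn
    have hle : n ≤ N := Finset.le_sup (f := id) hnT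
    rcases hpn with h1 | h1
    · exact Or.inl (hWm p hp (s n) h1 N (hs0 n) (hsmono n N hle))
    · exact Or.inr h1
  refine ⟨![IsometryEquiv.addRight (-(s N • v)), g], U N, hUo N, hCU, ?_⟩
  rintro p (h1 | h1)
  · refine mem_iUnion.2 ⟨0, ?_⟩
    exact ⟨p + s N • v, interior_subset h1, by simp⟩
  · refine mem_iUnion.2 ⟨1, ?_⟩
    exact interior_subset h1

/-- There is an orthonormal frame `a, W_1, …, W_n` of `ℝ^(n+1)` such that the cube of dimension `n`
spanned by `W` fits into the interior of the unit cube of dimension `n + 1`. -/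
theorem exists_frame (n : ℕ) : ∃ (a : Fin (n + 1) → ℝ) (W : Fin n → Fin (n + 1) → ℝ),
    (∑ j, a j * a j = 1) ∧ (∀ i, ∑ j, a j * W i j = 0) ∧
    (∀ i k, ∑ j, W i j * W k j = if i = k then 1 else 0) ∧ ∀ j, ∑ i, |W i j| < 1 := by
  induction n with
  | zero =>
    refine ⟨fun _ => 1, fun i => i.elim0, by simp, fun i => i.elim0, fun i => i.elim0, ?_⟩
    intro j
    simp
  | succ n ih =>
    obtain ⟨a, W, h1, h2, h3, h4⟩ := ih
    obtain ⟨δ, hδ0, hδ1, hδ⟩ : ∃ δ : ℝ, 0 < δ ∧ δ < 1 ∧ ∀ j, ∑ i, |W i j| + δ < 1 := by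
      obtain ⟨j0, -, hj0⟩ := Finset.exists_max_image Finset.univ (fun j => ∑ i, |W i j|)
        ⟨0, Finset.mem_univ _⟩
      refine ⟨(1 - ∑ i, |W i j0|) / 2, ?_, ?_, ?_⟩
      · linarith [h4 j0]
      · have : 0 ≤ ∑ i, |W i j0| := Finset.sum_nonneg fun i _ => abs_nonneg _
        linarith
      · intro j
        have := hj0 j (Finset.mem_univ _)
        linarith [h4 j0]
    set c : ℝ := √(1 - δ ^ 2) with hc
    have hc2 : c * c = 1 - δ ^ 2 := Real.mul_self_sqrt (by nlinarith)
    have hc0 : 0 ≤ c := Real.sqrt_nonneg _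
    have hc1 : c < 1 := by nlinarith
    have ha1 : ∀ j, |a j| ≤ 1 := by
      intro j
      have : a j * a j ≤ 1 := by
        rw [← h1]
        exact Finset.single_le_sum (f := fun j => a j * a j) (fun i _ => mul_self_nonneg _)
          (Finset.mem_univ j)
      apply abs_le_of_sq_le_sq' _ zero_le_one |> fun h => abs_le.2 h
      nlinarith
    refine ⟨Fin.snoc (α := fun _ => ℝ) (fun j => c * a j) δ,
      Fin.snoc (α := fun _ => Fin (n + 1 + 1) → ℝ)
        (fun i => Fin.snoc (α := fun _ => ℝ) (W i) 0)
        (Fin.snoc (α := fun _ => ℝ) (fun j => -(δ * a j)) c), ?_, ?_, ?_, ?_⟩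
    · rw [Fin.sum_univ_castSucc]
      simp only [Fin.snoc_castSucc, Fin.snoc_last]
      have : ∑ j, c * a j * (c * a j) = c * c * ∑ j, a j * a j := by
        rw [Finset.mul_sum]
        exact Finset.sum_congr rfl fun j _ => by ring
      rw [this, h1, hc2]
      ring
    · intro i
      refine Fin.lastCases ?_ (fun i => ?_) i
      · rw [Fin.sum_univ_castSucc]
        simp only [Fin.snoc_castSucc, Fin.snoc_last]
        have : ∑ j, c * a j * -(δ * a j) = -(c * δ) * ∑ j, a j * a j := by
          rw [Finset.mul_sum]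
          exact Finset.sum_congr rfl fun j _ => by ring
        rw [this, h1]
        ring
      · rw [Fin.sum_univ_castSucc]
        simp only [Fin.snoc_castSucc, Fin.snoc_last]
        have : ∑ j, c * a j * W i j = c * ∑ j, a j * W i j := by
          rw [Finset.mul_sum]
          exact Finset.sum_congr rfl fun j _ => by ring
        rw [this, h2]
        ring
    · intro i k
      refine Fin.lastCases ?_ (fun i => ?_) i
      · refine Fin.lastCases ?_ (fun k => ?_) k
        · rw [Fin.sum_univ_castSucc]
          simp only [Fin.snoc_castSucc, Fin.snoc_last, if_true]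
          have : ∑ j, -(δ * a j) * -(δ * a j) = δ ^ 2 * ∑ j, a j * a j := by
            rw [Finset.mul_sum]
            exact Finset.sum_congr rfl fun j _ => by ring
          rw [this, h1, hc2]
          ring
        · rw [Fin.sum_univ_castSucc]
          simp only [Fin.snoc_castSucc, Fin.snoc_last]
          have : ∑ j, -(δ * a j) * W k j = -δ * ∑ j, a j * W k j := by
            rw [Finset.mul_sum]
            exact Finset.sum_congr rfl fun j _ => by ring
          rw [this, h2, if_neg (Fin.castSucc_lt_last k).ne']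
          ring
      · refine Fin.lastCases ?_ (fun k => ?_) k
        · rw [Fin.sum_univ_castSucc]
          simp only [Fin.snoc_castSucc, Fin.snoc_last]
          have : ∑ j, W i j * -(δ * a j) = -δ * ∑ j, a j * W i j := by
            rw [Finset.mul_sum]
            exact Finset.sum_congr rfl fun j _ => by ring
          rw [this, h2, if_neg (Fin.castSucc_lt_last i).ne]
          ring
        · rw [Fin.sum_univ_castSucc]
          simp only [Fin.snoc_castSucc, Fin.snoc_last]
          rw [h3]
          simp [Fin.castSucc_inj]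
    · intro j
      refine Fin.lastCases ?_ (fun j => ?_) j
      · rw [Fin.sum_univ_castSucc]
        simp only [Fin.snoc_castSucc, Fin.snoc_last]
        simp only [abs_zero, Finset.sum_const_zero, zero_add]
        rw [abs_of_nonneg hc0]
        exact hc1
      · rw [Fin.sum_univ_castSucc]
        simp only [Fin.snoc_castSucc, Fin.snoc_last]
        rw [abs_neg, abs_mul, abs_of_pos hδ0]
        have := mul_le_mul_of_nonneg_left (ha1 j) hδ0.le
        linarith [hδ j]


/-! ### The pyramid by inequalities -/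

lemma apex_cast (k : ℕ) (h : ℝ) (j : Fin k) : apex k h j.castSucc = 1 / 2 := by
  simp [apex]

lemma apex_last (k : ℕ) (h : ℝ) : apex k h (Fin.last k) = h := by
  simp [apex]

/-- the description of the pyramid by linear inequalities -/
def pyrSet (k : ℕ) (h : ℝ) : Set (E (k + 1)) :=
  {y | 0 ≤ y (Fin.last k) ∧ ∀ j : Fin k,
    y (Fin.last k) ≤ 2 * h * y j.castSucc ∧ y (Fin.last k) ≤ 2 * h * (1 - y j.castSucc)}

lemma convex_pyrSet (k : ℕ) (h : ℝ) : Convex ℝ (pyrSet k h) := by
  intro p hp q hq a b ha hb hab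
  obtain ⟨h0, h1⟩ := hp
  obtain ⟨g0, g1⟩ := hq
  refine ⟨?_, fun j => ⟨?_, ?_⟩⟩
  · simp only [PiLp.add_apply, PiLp.smul_apply, smul_eq_mul]
    nlinarith [mul_nonneg ha h0, mul_nonneg hb g0]
  · simp only [PiLp.add_apply, PiLp.smul_apply, smul_eq_mul]
    nlinarith [mul_le_mul_of_nonneg_left (h1 j).1 ha, mul_le_mul_of_nonneg_left (g1 j).1 hb]
  · simp only [PiLp.add_apply, PiLp.smul_apply, smul_eq_mul]
    have e : (1 : ℝ) - (a * p j.castSucc + b * q j.castSucc) =
        a * (1 - p j.castSucc) + b * (1 - q j.castSucc) := by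
      linear_combination -hab
    rw [e]
    nlinarith [mul_le_mul_of_nonneg_left (h1 j).2 ha, mul_le_mul_of_nonneg_left (g1 j).2 hb]

lemma pyramid_eq {k : ℕ} (hk : 1 ≤ k) {h : ℝ} (hh : 0 < h) : pyramid k h = pyrSet k h := by
  apply Set.Subset.antisymm
  · apply convexHull_min _ (convex_pyrSet k h)
    rintro y (hy | hy)
    · obtain ⟨h1, h2⟩ := hy
      refine ⟨h2.ge, fun j => ?_⟩
      rw [h2]
      exact ⟨mul_nonneg (by positivity) (h1 j).1,
        mul_nonneg (by positivity) (by linarith [(h1 j).2])⟩
    · rw [mem_singleton_iff] at hy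
      subst hy
      refine ⟨by rw [apex_last]; exact hh.le, fun j => ?_⟩
      rw [apex_last, apex_cast]
      constructor <;> linarith
  · rintro y ⟨h0, h1⟩
    have hz : y (Fin.last k) ≤ h := by
      have := h1 ⟨0, hk⟩
      linarith [this.1, this.2]
    have hA : apex k h ∈ pyramid k h := subset_convexHull ℝ _ (Or.inr rfl)
    rcases hz.eq_or_lt with hz | hz
    · have : y = apex k h := by
        ext j
        refine Fin.lastCases ?_ (fun j => ?_) j
        · rw [hz, apex_last]
        · rw [apex_cast]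
          have := h1 j
          rw [hz] at this
          have e1 : 1 ≤ 2 * y j.castSucc := by
            by_contra hcon
            push Not at hcon
            nlinarith [this.1]
          have e2 : 1 ≤ 2 * (1 - y j.castSucc) := by
            by_contra hcon
            push Not at hcon
            nlinarith [this.2]
          linarith
      rw [this]
      exact hA
    · set t : ℝ := y (Fin.last k) / h with ht
      have ht0 : 0 ≤ t := div_nonneg h0 hh.le
      have ht1 : t < 1 := (div_lt_one hh).2 hz
      have hth : t * h = y (Fin.last k) := by rw [ht]; field_simp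
      let b : E (k + 1) := (1 - t)⁻¹ • (y - t • apex k h)
      have h1t : (0 : ℝ) < 1 - t := by linarith
      have hb : b ∈ base k := by
        constructor
        · intro j
          have hj := h1 j
          rw [← hth] at hj
          have e1 : t ≤ 2 * y j.castSucc := by
            have := hj.1
            have : t * h ≤ (2 * y j.castSucc) * h := by linarith
            exact le_of_mul_le_mul_right this hh
          have e2 : t ≤ 2 * (1 - y j.castSucc) := by
            have := hj.2
            have : t * h ≤ (2 * (1 - y j.castSucc)) * h := by linarith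
            exact le_of_mul_le_mul_right this hh
          simp only [b, PiLp.smul_apply, PiLp.sub_apply, smul_eq_mul, apex_cast]
          constructor
          · exact mul_nonneg (inv_nonneg.2 h1t.le) (by linarith)
          · rw [inv_mul_le_iff₀ h1t]
            linarith
        · simp only [b, PiLp.smul_apply, PiLp.sub_apply, smul_eq_mul, apex_last]
          rw [hth]
          ring
      have hyb : y = (1 - t) • b + t • apex k h := by
        simp only [b]
        rw [smul_smul, mul_inv_cancel₀ h1t.ne', one_smul]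
        abel
      have hconv : Convex ℝ (pyramid k h) := convex_convexHull ℝ _
      have hbP : b ∈ pyramid k h := subset_convexHull ℝ _ (Or.inl hb)
      rw [hyb]
      exact hconv hbP hA h1t.le ht0 (by ring)

lemma isCompact_base (k : ℕ) : IsCompact (base k) := by
  have e : base k = (⋂ i : Fin k, {x : E (k + 1) | 0 ≤ x i.castSucc ∧ x i.castSucc ≤ 1}) ∩
      {x : E (k + 1) | x (Fin.last k) = 0} := by
    ext x
    simp [base]
  apply Metric.isCompact_of_isClosed_isBounded
  · rw [e]
    refine IsClosed.inter (isClosed_iInter fun i => ?_) ?_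
    · have h1 : Continuous (fun x : E (k + 1) => x i.castSucc) := by fun_prop
      exact (isClosed_le continuous_const h1).inter (isClosed_le h1 continuous_const)
    · have h1 : Continuous (fun x : E (k + 1) => x (Fin.last k)) := by fun_prop
      exact isClosed_eq h1 continuous_const
  · rw [isBounded_iff_forall_norm_le]
    refine ⟨√(k + 1), fun x hx => ?_⟩
    rw [EuclideanSpace.norm_eq]
    apply Real.sqrt_le_sqrt
    rw [Fin.sum_univ_castSucc, hx.2]
    have : (∑ i : Fin k, ‖x i.castSucc‖ ^ 2) ≤ (∑ _i : Fin k, (1 : ℝ)) := by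
      apply Finset.sum_le_sum
      intro i _
      have := hx.1 i
      rw [Real.norm_eq_abs, sq_abs]
      nlinarith
    simp at this ⊢
    linarith

lemma isCompact_pyramid {k : ℕ} (hk : 1 ≤ k) {h : ℝ} (hh : 0 < h) : IsCompact (pyramid k h) := by
  apply Metric.isCompact_of_isClosed_isBounded
  · rw [pyramid_eq hk hh]
    have e : pyrSet k h = {y : E (k + 1) | 0 ≤ y (Fin.last k)} ∩
        ⋂ j : Fin k, {y : E (k + 1) | y (Fin.last k) ≤ 2 * h * y j.castSucc ∧
          y (Fin.last k) ≤ 2 * h * (1 - y j.castSucc)} := by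
      ext x
      simp [pyrSet]
    rw [e]
    have hl : Continuous (fun x : E (k + 1) => x (Fin.last k)) := by fun_prop
    refine IsClosed.inter (isClosed_le continuous_const hl) (isClosed_iInter fun j => ?_)
    have hj : Continuous (fun x : E (k + 1) => x j.castSucc) := by fun_prop
    exact (isClosed_le hl (by fun_prop)).inter (isClosed_le hl (by fun_prop))
  · exact isBounded_convexHull.2
      ((isCompact_base k).isBounded.union Bornology.isBounded_singleton)

lemma convex_pyramid (k : ℕ) (h : ℝ) : Convex ℝ (pyramid k h) := convex_convexHull ℝ _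

/-- strict inequalities give interior points -/
lemma mem_interior_pyramid {k : ℕ} (hk : 1 ≤ k) {h : ℝ} (hh : 0 < h) {y : E (k + 1)}
    (h0 : 0 < y (Fin.last k)) (h1 : ∀ j : Fin k,
      y (Fin.last k) < 2 * h * y j.castSucc ∧ y (Fin.last k) < 2 * h * (1 - y j.castSucc)) :
    y ∈ interior (pyramid k h) := by
  rw [mem_interior]
  refine ⟨{y | 0 < y (Fin.last k)} ∩ ⋂ j : Fin k, {y |
      y (Fin.last k) < 2 * h * y j.castSucc ∧ y (Fin.last k) < 2 * h * (1 - y j.castSucc)},
    ?_, ?_, ⟨h0, mem_iInter.2 h1⟩⟩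
  · rw [pyramid_eq hk hh]
    rintro z ⟨hz0, hz1⟩
    refine ⟨le_of_lt hz0, fun j => ?_⟩
    have := mem_iInter.1 hz1 j
    exact ⟨this.1.le, this.2.le⟩
  · have hl : Continuous (fun x : E (k + 1) => x (Fin.last k)) := by fun_prop
    refine IsOpen.inter (isOpen_lt continuous_const hl) (isOpen_iInter_of_finite fun j => ?_)
    have hj : Continuous (fun x : E (k + 1) => x j.castSucc) := by fun_prop
    exact (isOpen_lt hl (by fun_prop)).inter (isOpen_lt hl (by fun_prop))

lemma interior_pyramid_nonempty {k : ℕ} (hk : 1 ≤ k) {h : ℝ} (hh : 0 < h) :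
    (interior (pyramid k h)).Nonempty := by
  refine ⟨(WithLp.toLp 2 (Fin.snoc (α := fun _ => ℝ) (fun _ : Fin k => (1 / 2 : ℝ)) (h / 2))),
    mem_interior_pyramid hk hh ?_ ?_⟩
  · simp; linarith
  · intro j
    simp
    constructor <;> linarith

/-- Every pyramid is a convex body with some finite Newton number attained. -/
lemma covers_newton {k : ℕ} (hk : 1 ≤ k) {h : ℝ} (hh : 0 < h) :
    Covers (pyramid k h) (newton (pyramid k h)) :=
  Nat.sInf_mem (s := {n : ℕ | Covers (pyramid k h) n})
    (Pool.Agent.Helper2.NewtonCover.exists_covers (isCompact_pyramid hk hh)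
      (interior_pyramid_nonempty hk hh))

lemma two_le_newton {d : ℕ} (hd : 1 ≤ d) {C : Set (E d)} (hk : IsCompact C)
    (hne : (interior C).Nonempty) : 2 ≤ newton C := by
  have : Nontrivial (E d) := by
    rw [← Module.finrank_pos_iff (R := ℝ), finrank_euclideanSpace_fin]
    omega
  have h1 : Covers C (newton C) :=
    Nat.sInf_mem (s := {n : ℕ | Covers C n}) (Pool.Agent.Helper2.NewtonCover.exists_covers hk hne)
  by_contra hcon
  push Not at hcon
  exact Pool.Agent.Helper2.NewtonSmooth.not_covers_one hk hne (by omega) h1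

/-- If the base fits (by an isometry `f`) into the interior of the pyramid, two copies suffice. -/
lemma newton_eq_two_of {k : ℕ} (hk : 1 ≤ k) {h : ℝ} (hh : 0 < h) (f : E (k + 1) ≃ᵢ E (k + 1))
    (hf : ∀ x ∈ base k, f x ∈ interior (pyramid k h)) : newton (pyramid k h) = 2 := by
  apply le_antisymm
  · apply Nat.sInf_le
    refine cover_two (convex_pyramid k h) (isCompact_pyramid hk hh)
      (v := EuclideanSpace.single (Fin.last k) (-1)) f.symm ?_
    intro p hp
    have hp' := hp
    rw [pyramid_eq hk hh] at hp'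
    obtain ⟨h0, h1⟩ := hp'
    rcases h0.eq_or_lt with h0 | h0
    · right
      have hb : p ∈ base k := by
        refine ⟨fun j => ?_, h0.symm⟩
        have := h1 j
        rw [← h0] at this
        constructor
        · by_contra hcon
          push Not at hcon
          nlinarith [this.1]
        · by_contra hcon
          push Not at hcon
          nlinarith [this.2]
      rw [mem_interior]
      refine ⟨f ⁻¹' interior (pyramid k h), ?_, isOpen_interior.preimage f.continuous, hf p hb⟩
      intro x hx
      exact ⟨f x, interior_subset hx, by simp⟩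
    · left
      refine ⟨p (Fin.last k) / 2, by linarith, ?_⟩
      apply mem_interior_pyramid hk hh
      · simp
        linarith
      · intro j
        have hne : (j.castSucc) ≠ Fin.last k := (Fin.castSucc_lt_last j).ne
        simp only [PiLp.add_apply, PiLp.smul_apply, smul_eq_mul, PiLp.single_apply, if_neg hne]
        simp only [if_true, mul_zero, add_zero]
        have := h1 j
        constructor <;> linarith [this.1, this.2]
  · exact two_le_newton (by omega) (isCompact_pyramid hk hh) (interior_pyramid_nonempty hk hh)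


/-! ### Tall pyramids -/

/-- The base embeds into the interior of a tall pyramid. -/
theorem exists_embed (n : ℕ) : ∃ h0 : ℝ, 0 < h0 ∧ ∀ h : ℝ, h0 ≤ h →
    ∃ f : E (n + 1 + 1) ≃ᵢ E (n + 1 + 1), ∀ x ∈ base (n + 1), f x ∈ interior (pyramid (n + 1) h) := by
  obtain ⟨a, W, h1, h2, h3, h4⟩ := exists_frame n
  obtain ⟨ρ, hρ0, hρ1, hρ⟩ : ∃ ρ : ℝ, 0 ≤ ρ ∧ ρ < 1 ∧ ∀ j, ∑ i, |W i j| ≤ ρ := by
    obtain ⟨j0, -, hj0⟩ := Finset.exists_max_image Finset.univ (fun j => ∑ i, |W i j|)
      ⟨0, Finset.mem_univ _⟩
    exact ⟨∑ i, |W i j0|, Finset.sum_nonneg fun i _ => abs_nonneg _, h4 j0,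
      fun j => hj0 j (Finset.mem_univ _)⟩
  refine ⟨2 / (1 - ρ), div_pos two_pos (by linarith), fun h hh => ?_⟩
  have h1ρ : 0 < 1 - ρ := by linarith
  have hh' : 2 ≤ h * (1 - ρ) := by rwa [div_le_iff₀ h1ρ] at hh
  have hpos : 0 < h := lt_of_lt_of_le (div_pos two_pos h1ρ) hh
  -- the linear isometry
  let b : Fin (n + 1 + 1) → E (n + 1 + 1) :=
    Fin.cons (α := fun _ => E (n + 1 + 1)) (EuclideanSpace.single (Fin.last (n + 1)) 1)
      (Fin.snoc (α := fun _ => E (n + 1 + 1))
        (fun i => WithLp.toLp 2 (Fin.snoc (α := fun _ => ℝ) (W i) 0))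
        (WithLp.toLp 2 (Fin.snoc (α := fun _ => ℝ) a 0)))
  have hb : Orthonormal ℝ b := by
    rw [orthonormal_iff_ite]
    intro i k
    rw [PiLp.inner_apply]
    simp only [RCLike.inner_apply, conj_trivial]
    rw [Fin.sum_univ_castSucc]
    refine Fin.cases ?_ (fun i => ?_) i
    · refine Fin.cases ?_ (fun k => ?_) k
      · simp [b]
      · refine Fin.lastCases ?_ (fun k => ?_) k
        · simp [b, Fin.ext_iff]
          exact Finset.sum_eq_zero fun x _ => if_neg (by have := x.2; omega)
        · simp [b, Fin.ext_iff]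
          exact Finset.sum_eq_zero fun x _ => if_neg (by have := x.2; omega)
    · refine Fin.cases ?_ (fun k => ?_) k
      · refine Fin.lastCases ?_ (fun i => ?_) i
        · simp [b, Fin.ext_iff]
          exact Finset.sum_eq_zero fun x _ => if_neg (by have := x.2; omega)
        · simp [b, Fin.ext_iff]
          exact Finset.sum_eq_zero fun x _ => if_neg (by have := x.2; omega)
      · refine Fin.lastCases ?_ (fun i => ?_) i
        · refine Fin.lastCases ?_ (fun k => ?_) k
          · simp only [b, Fin.cons_succ, Fin.snoc_last, Fin.snoc_castSucc, if_true]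
            rw [h1]
            ring
          · simp only [b, Fin.cons_succ, Fin.snoc_last, Fin.snoc_castSucc]
            have : ∑ x, W k x * a x = ∑ x, a x * W k x :=
              Finset.sum_congr rfl fun x _ => mul_comm _ _
            rw [this, h2]
            simp [Fin.ext_iff]
            omega
        · refine Fin.lastCases ?_ (fun k => ?_) k
          · simp only [b, Fin.cons_succ, Fin.snoc_last, Fin.snoc_castSucc]
            rw [h2]
            simp [Fin.ext_iff]
            omega
          · simp only [b, Fin.cons_succ, Fin.snoc_castSucc]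
            rw [h3]
            simp [Fin.ext_iff, eq_comm]
  let B : OrthonormalBasis (Fin (n + 1 + 1)) ℝ (E (n + 1 + 1)) :=
    OrthonormalBasis.mk hb (by
      rw [hb.linearIndependent.span_eq_top_of_card_eq_finrank]
      rw [finrank_euclideanSpace_fin, Fintype.card_fin])
  have hB : ∀ i, B i = b i := fun i => by simp [B]
  let L : E (n + 1 + 1) ≃ₗᵢ[ℝ] E (n + 1 + 1) := B.repr.symm
  have hL : ∀ x, L x = ∑ i, x i • b i := by
    intro x
    have : L x = ∑ i, x i • B i := (B.sum_repr_symm x).symm
    rw [this]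
    simp_rw [hB]
  -- coordinates of the image
  have hLlast : ∀ x, L x (Fin.last (n + 1)) = x 0 := by
    intro x
    rw [hL, Fin.sum_univ_succ, Fin.sum_univ_castSucc]
    simp [b]
  have hLc : ∀ x (j : Fin (n + 1)), L x j.castSucc =
      (∑ i : Fin n, x i.castSucc.succ * W i j) + x (Fin.last (n + 1)) * a j := by
    intro x j
    rw [hL, Fin.sum_univ_succ, Fin.sum_univ_castSucc]
    simp [b, Fin.ext_iff]
    have := j.2
    omega
  -- the isometry
  let m : E (n + 1 + 1) :=
    WithLp.toLp 2 (Fin.snoc (α := fun _ => ℝ) (fun _ : Fin (n + 1) => (1 / 2 : ℝ)) 0)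
  let c : E (n + 1 + 1) :=
    WithLp.toLp 2 (Fin.snoc (α := fun _ => ℝ) (fun _ : Fin (n + 1) => (1 / 2 : ℝ)) 1)
  refine ⟨((IsometryEquiv.addRight (-m)).trans L.toIsometryEquiv).trans (IsometryEquiv.addRight c),
    fun x hx => ?_⟩
  obtain ⟨hx1, hx2⟩ := hx
  set y := (((IsometryEquiv.addRight (-m)).trans L.toIsometryEquiv).trans
    (IsometryEquiv.addRight c)) x with hy
  have hy' : y = L (x + -m) + c := rfl
  have hm : ∀ j : Fin (n + 1), (x + -m) j.castSucc = x j.castSucc - 1 / 2 := by
    intro j
    simp [m]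
    ring
  have hml : (x + -m) (Fin.last (n + 1)) = 0 := by
    simp [m, hx2]
  have hylast : y (Fin.last (n + 1)) = (x 0 - 1 / 2) + 1 := by
    rw [hy', PiLp.add_apply, hLlast]
    have h0 : (x + -m) 0 = x 0 - 1 / 2 := hm 0
    rw [h0]
    simp [c]
  have hyc : ∀ j : Fin (n + 1), |y j.castSucc - 1 / 2| ≤ ρ / 2 := by
    intro j
    have e : y j.castSucc - 1 / 2 = ∑ i : Fin n, (x i.castSucc.succ - 1 / 2) * W i j := by
      rw [hy', PiLp.add_apply, hLc, hml]
      have hc : c j.castSucc = 1 / 2 := by simp [c]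
      rw [hc]
      have : ∀ i : Fin n, (x + -m) i.castSucc.succ = x i.castSucc.succ - 1 / 2 := by
        intro i
        rw [Fin.succ_castSucc]
        exact hm i.succ
      simp_rw [this]
      ring
    rw [e]
    calc |∑ i : Fin n, (x i.castSucc.succ - 1 / 2) * W i j|
        ≤ ∑ i : Fin n, |(x i.castSucc.succ - 1 / 2) * W i j| := Finset.abs_sum_le_sum_abs _ _
      _ ≤ ∑ i : Fin n, 1 / 2 * |W i j| := by
          apply Finset.sum_le_sum
          intro i _
          rw [abs_mul]
          apply mul_le_mul_of_nonneg_right _ (abs_nonneg _)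
          rw [Fin.succ_castSucc]
          have := hx1 i.succ
          rw [abs_le]
          constructor <;> linarith
      _ = 1 / 2 * ∑ i : Fin n, |W i j| := by rw [Finset.mul_sum]
      _ ≤ 1 / 2 * ρ := by
          apply mul_le_mul_of_nonneg_left (hρ j) (by norm_num)
      _ = ρ / 2 := by ring
  have hx0 : 0 ≤ x 0 ∧ x 0 ≤ 1 := hx1 0
  apply mem_interior_pyramid (by omega) hpos
  · rw [hylast]
    linarith [hx0.1]
  · intro j
    rw [hylast]
    have h5 := abs_le.1 (hyc j)
    have h6 : 1 / 2 - ρ / 2 ≤ y j.castSucc := by linarith [h5.1]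
    have h7 : 1 / 2 - ρ / 2 ≤ 1 - y j.castSucc := by linarith [h5.2]
    have h8 := mul_le_mul_of_nonneg_left h6 (by positivity : (0 : ℝ) ≤ 2 * h)
    have h9 := mul_le_mul_of_nonneg_left h7 (by positivity : (0 : ℝ) ≤ 2 * h)
    have e : 2 * h * (1 / 2 - ρ / 2) = h * (1 - ρ) := by ring
    rw [e] at h8 h9
    constructor <;> linarith [hx0.2]

/-- In every dimension the Newton covering number of tall pyramids is two. -/
theorem newton_tall {k : ℕ} (hk : 1 ≤ k) : ∃ h0 : ℝ, 0 < h0 ∧ ∀ h : ℝ, h0 ≤ h →
    newton (pyramid k h) = 2 := by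
  obtain ⟨n, rfl⟩ : ∃ n, k = n + 1 := ⟨k - 1, by omega⟩
  obtain ⟨h0, hh0, hf⟩ := exists_embed n
  refine ⟨h0, hh0, fun h hh => ?_⟩
  obtain ⟨f, hf⟩ := hf h hh
  exact newton_eq_two_of hk (lt_of_lt_of_le hh0 hh) f hf

/-! ### A height at which three copies are needed -/

lemma dist_sq_eq {d : ℕ} (x y : E d) : dist x y ^ 2 = ∑ i, (x i - y i) ^ 2 := by
  rw [EuclideanSpace.dist_eq, Real.sq_sqrt (Finset.sum_nonneg fun i _ => by positivity)]
  exact Finset.sum_congr rfl fun i _ => by rw [Real.dist_eq, sq_abs]

/-- At height `√(3k)/2` (in dimension `k + 1`) at least three copies are needed. -/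
theorem three_le_newton {k : ℕ} (hk : 1 ≤ k) : 3 ≤ newton (pyramid k (√(3 * k) / 2)) := by
  set h : ℝ := √(3 * k) / 2 with hh
  have hkR : (0 : ℝ) < k := by exact_mod_cast hk
  have hpos : 0 < h := by positivity
  have hh2 : h ^ 2 = 3 * k / 4 := by
    rw [hh, div_pow, Real.sq_sqrt (by positivity)]
    norm_num
  have hC := isCompact_pyramid hk hpos
  have hcov := covers_newton hk hpos
  by_contra hcon
  push Not at hcon
  obtain ⟨κ, A, hκ0, hκ1, -, hA, hd⟩ := Pool.Agent.Helper2.NewtonSmooth.borsuk hC hcov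
  -- three points
  let p0 : E (k + 1) := 0
  let p1 : E (k + 1) := WithLp.toLp 2 (Fin.snoc (α := fun _ => ℝ) (fun _ : Fin k => (1 : ℝ)) 0)
  let p2 : E (k + 1) := apex k h
  have m0 : p0 ∈ pyramid k h := subset_convexHull ℝ _ (Or.inl ⟨fun i => by simp [p0], by simp [p0]⟩)
  have m1 : p1 ∈ pyramid k h := subset_convexHull ℝ _ (Or.inl ⟨fun i => by simp [p1], by simp [p1]⟩)
  have m2 : p2 ∈ pyramid k h := subset_convexHull ℝ _ (Or.inr rfl)
  have d01 : dist p0 p1 = √k := by
    rw [eq_comm, Real.sqrt_eq_iff_mul_self_eq (by positivity) dist_nonneg, ← sq, dist_sq_eq,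
      Fin.sum_univ_castSucc]
    simp [p0, p1]
  have d02 : dist p0 p2 = √k := by
    rw [eq_comm, Real.sqrt_eq_iff_mul_self_eq (by positivity) dist_nonneg, ← sq, dist_sq_eq,
      Fin.sum_univ_castSucc]
    simp [p0, p2, apex_cast, apex_last, hh2]
    ring
  have d12 : dist p1 p2 = √k := by
    rw [eq_comm, Real.sqrt_eq_iff_mul_self_eq (by positivity) dist_nonneg, ← sq, dist_sq_eq,
      Fin.sum_univ_castSucc]
    simp [p1, p2, apex_cast, apex_last, hh2]
    ring
  have hdiam : diam (pyramid k h) ≤ √k := by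
    unfold pyramid
    rw [convexHull_diam]
    apply diam_le_of_forall_dist_le (by positivity)
    have key : ∀ x ∈ base k, dist x (apex k h) ≤ √k := by
      intro x hx
      apply Real.le_sqrt_of_sq_le
      rw [dist_sq_eq, Fin.sum_univ_castSucc, hx.2, apex_last]
      have : (∑ i : Fin k, (x i.castSucc - apex k h i.castSucc) ^ 2) ≤ ∑ _i : Fin k, (1 / 4 : ℝ) := by
        apply Finset.sum_le_sum
        intro i _
        rw [apex_cast]
        have := hx.1 i
        nlinarith
      simp at this
      rw [zero_sub, neg_sq, hh2]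
      linarith
    rintro x (hx | hx) y (hy | hy)
    · apply Real.le_sqrt_of_sq_le
      rw [dist_sq_eq, Fin.sum_univ_castSucc, hx.2, hy.2]
      have : (∑ i : Fin k, (x i.castSucc - y i.castSucc) ^ 2) ≤ ∑ _i : Fin k, (1 : ℝ) := by
        apply Finset.sum_le_sum
        intro i _
        have h1 := hx.1 i
        have h2 := hy.1 i
        nlinarith
      simp at this
      simpa using this
    · rw [mem_singleton_iff] at hy
      rw [hy]
      exact key x hx
    · rw [mem_singleton_iff] at hx
      rw [hx, dist_comm]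
      exact key y hy
    · rw [mem_singleton_iff] at hx hy
      rw [hx, hy, dist_self]
      positivity
  have hsmall : ∀ i, ∀ x ∈ A i, ∀ y ∈ A i, dist x y ≠ √k := by
    intro i x hx y hy hxy
    have h1 := hd i x hx y hy
    rw [hxy] at h1
    have h2 : κ * diam (pyramid k h) ≤ κ * √k := mul_le_mul_of_nonneg_left hdiam hκ0
    have h3 : 0 < √(k : ℝ) := Real.sqrt_pos.2 hkR
    nlinarith
  obtain ⟨i0, hi0⟩ := mem_iUnion.1 (hA m0)
  obtain ⟨i1, hi1⟩ := mem_iUnion.1 (hA m1)
  obtain ⟨i2, hi2⟩ := mem_iUnion.1 (hA m2)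
  have n01 : i0 ≠ i1 := by rintro rfl; exact hsmall _ _ hi0 _ hi1 d01
  have n02 : i0 ≠ i2 := by rintro rfl; exact hsmall _ _ hi0 _ hi2 d02
  have n12 : i1 ≠ i2 := by rintro rfl; exact hsmall _ _ hi1 _ hi2 d12
  have b0 := i0.2
  have b1 := i1.2
  have b2 := i2.2
  rw [Ne, Fin.ext_iff] at n01 n02 n12
  omega


/-! ### The cube -/

lemma isCompact_cube (k : ℕ) : IsCompact (cube k) := by
  have e : cube k = ⋂ i : Fin k, {x : E k | 0 ≤ x i ∧ x i ≤ 1} := by
    ext x
    simp [cube]
  apply Metric.isCompact_of_isClosed_isBounded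
  · rw [e]
    refine isClosed_iInter fun i => ?_
    have h1 : Continuous (fun x : E k => x i) := by fun_prop
    exact (isClosed_le continuous_const h1).inter (isClosed_le h1 continuous_const)
  · rw [isBounded_iff_forall_norm_le]
    refine ⟨√k, fun x hx => ?_⟩
    rw [EuclideanSpace.norm_eq]
    apply Real.sqrt_le_sqrt
    have : (∑ i : Fin k, ‖x i‖ ^ 2) ≤ (∑ _i : Fin k, (1 : ℝ)) := by
      apply Finset.sum_le_sum
      intro i _
      have := hx i
      rw [Real.norm_eq_abs, sq_abs]
      nlinarith
    simpa using this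

lemma interior_cube_nonempty (k : ℕ) : (interior (cube k)).Nonempty := by
  refine ⟨WithLp.toLp 2 (fun _ => (1 / 2 : ℝ)), ?_⟩
  rw [mem_interior]
  refine ⟨⋂ i : Fin k, {x : E k | 0 < x i ∧ x i < 1}, ?_, ?_, ?_⟩
  · intro x hx i
    have := mem_iInter.1 hx i
    exact ⟨this.1.le, this.2.le⟩
  · refine isOpen_iInter_of_finite fun i => ?_
    have h1 : Continuous (fun x : E k => x i) := by fun_prop
    exact (isOpen_lt continuous_const h1).inter (isOpen_lt h1 continuous_const)
  · refine mem_iInter.2 fun i => ?_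
    simp
    norm_num

lemma two_le_newton_cube {k : ℕ} (hk : 1 ≤ k) : 2 ≤ newton (cube k) :=
  two_le_newton hk (isCompact_cube k) (interior_cube_nonempty k)

end Pool.Agent.R168.Newton
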