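import Mathlib

/-! Exact branch and bound check: for three segments with integer end points, an upper bound
for the doubled area of a triangle by a multiple of its perimeter. -/

namespace Pool.Agent.R168.TriBB

/-- forces evaluation of an integer -/
def fI (z : ℤ) (f : ℤ → Bool) : Bool :=
  match z with
  | Int.ofNat 0 => f (Int.ofNat 0)
  | Int.ofNat (n+1) => f (Int.ofNat (n+1))
  | Int.negSucc 0 => f (Int.negSucc 0)
  | Int.negSucc (n+1) => f (Int.negSucc (n+1))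

theorem fI_eq (z : ℤ) (f : ℤ → Bool) : fI z f = f z := by
  unfold fI
  rcases z with (_ | n) | (_ | n) <;> rfl

def isq : ℕ → ℕ → ℕ → ℕ
  | 0, _, g => g
  | k+1, n, g =>
    match (g + n / g) / 2 with
    | 0 => isq k n 0
    | m+1 => isq k n (m+1)

/-- scale of the direction vectors -/
def K : ℤ := 1048576
/-- scale of the coordinates times 61 -/
def CS : ℤ := 2498310144

def dirc (T a : ℤ) : ℤ := Int.tdiv (a * 1048576) T

/-- eight corner test -/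
def leaf (ux uy vx vy wx wy a1 a2 b1 b2 c1 c2 d1 d2 e1 e2 f1 f2 : ℤ) : Bool :=
  -- A in [a,b], B in [c,d], C in [e,f]
  decide (ux*ux+uy*uy ≤ 1099511627776) && decide (vx*vx+vy*vy ≤ 1099511627776) &&
  decide (wx*wx+wy*wy ≤ 1099511627776) &&
  fI (2498310144*((wx-ux)*a1+(wy-uy)*a2)) fun pa =>
  fI (2498310144*((wx-ux)*b1+(wy-uy)*b2)) fun pb =>
  fI (2498310144*((ux-vx)*c1+(uy-vy)*c2)) fun pc =>
  fI (2498310144*((ux-vx)*d1+(uy-vy)*d2)) fun pd =>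
  fI (2498310144*((vx-wx)*e1+(vy-wy)*e2)) fun pe =>
  fI (2498310144*((vx-wx)*f1+(vy-wy)*f2)) fun pf =>
  fI (262144000*(a1*c2-a2*c1)) fun ac =>
  fI (262144000*(a1*d2-a2*d1)) fun ad =>
  fI (262144000*(b1*c2-b2*c1)) fun bc =>
  fI (262144000*(b1*d2-b2*d1)) fun bd =>
  fI (262144000*(c1*e2-c2*e1)) fun ce =>
  fI (262144000*(c1*f2-c2*f1)) fun cf =>
  fI (262144000*(d1*e2-d2*e1)) fun de =>
  fI (262144000*(d1*f2-d2*f1)) fun df =>
  fI (262144000*(e1*a2-e2*a1)) fun ea =>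
  fI (262144000*(e1*b2-e2*b1)) fun eb =>
  fI (262144000*(f1*a2-f2*a1)) fun fa =>
  fI (262144000*(f1*b2-f2*b1)) fun fb =>
  decide (ac+ce+ea ≤ pa+pc+pe) && decide (ac+cf+fa ≤ pa+pc+pf) &&
  decide (ad+de+ea ≤ pa+pd+pe) && decide (ad+df+fa ≤ pa+pd+pf) &&
  decide (bc+ce+eb ≤ pb+pc+pe) && decide (bc+cf+fb ≤ pb+pc+pf) &&
  decide (bd+de+eb ≤ pb+pd+pe) && decide (bd+df+fb ≤ pb+pd+pf)

/-- with directions computed from the mid points -/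
def leafC (a1 a2 b1 b2 c1 c2 d1 d2 e1 e2 f1 f2 : ℤ) : Bool :=
  fI (c1+d1-a1-b1) fun x1 => fI (c2+d2-a2-b2) fun y1 =>
  fI (e1+f1-c1-d1) fun x2 => fI (e2+f2-c2-d2) fun y2 =>
  fI (a1+b1-e1-f1) fun x3 => fI (a2+b2-e2-f2) fun y3 =>
  fI (isq 5 (x1*x1+y1*y1).toNat (x1.natAbs+y1.natAbs) + 1) fun T1 =>
  fI (isq 5 (x2*x2+y2*y2).toNat (x2.natAbs+y2.natAbs) + 1) fun T2 =>
  fI (isq 5 (x3*x3+y3*y3).toNat (x3.natAbs+y3.natAbs) + 1) fun T3 =>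
  fI (dirc T1 x1) fun ux => fI (dirc T1 y1) fun uy =>
  fI (dirc T2 x2) fun vx => fI (dirc T2 y2) fun vy =>
  fI (dirc T3 x3) fun wx => fI (dirc T3 y3) fun wy =>
  leaf ux uy vx vy wx wy a1 a2 b1 b2 c1 c2 d1 d2 e1 e2 f1 f2 ||
  leaf (-wx) (-wy) (-wx) (-wy) wx wy a1 a2 b1 b2 c1 c2 d1 d2 e1 e2 f1 f2

def bb : ℕ → ℤ → ℤ → ℤ → ℤ → ℤ → ℤ → ℤ → ℤ → ℤ → ℤ → ℤ → ℤ → Bool
  | 0, _, _, _, _, _, _, _, _, _, _, _, _ => false
  | n+1, a1, a2, b1, b2, c1, c2, d1, d2, e1, e2, f1, f2 =>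
    leafC a1 a2 b1 b2 c1 c2 d1 d2 e1 e2 f1 f2 ||
    (fI ((a1-b1)*(a1-b1)+(a2-b2)*(a2-b2)) fun la =>
     fI ((c1-d1)*(c1-d1)+(c2-d2)*(c2-d2)) fun lb =>
     fI ((e1-f1)*(e1-f1)+(e2-f2)*(e2-f2)) fun lc =>
     if lb ≤ la ∧ lc ≤ la then
       fI ((a1+b1)/2) fun m1 => fI ((a2+b2)/2) fun m2 =>
       decide (2*m1 = a1+b1) && decide (2*m2 = a2+b2) &&
       bb n a1 a2 m1 m2 c1 c2 d1 d2 e1 e2 f1 f2 && bb n m1 m2 b1 b2 c1 c2 d1 d2 e1 e2 f1 f2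
     else if lc ≤ lb then
       fI ((c1+d1)/2) fun m1 => fI ((c2+d2)/2) fun m2 =>
       decide (2*m1 = c1+d1) && decide (2*m2 = c2+d2) &&
       bb n a1 a2 b1 b2 c1 c2 m1 m2 e1 e2 f1 f2 && bb n a1 a2 b1 b2 m1 m2 d1 d2 e1 e2 f1 f2
     else
       fI ((e1+f1)/2) fun m1 => fI ((e2+f2)/2) fun m2 =>
       decide (2*m1 = e1+f1) && decide (2*m2 = e2+f2) &&
       bb n a1 a2 b1 b2 c1 c2 d1 d2 e1 e2 m1 m2 && bb n a1 a2 b1 b2 c1 c2 d1 d2 m1 m2 f1 f2)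

def VX : ℕ → ℤ
  | 0 => 0
  | 1 => 364544
  | 2 => 25325568
  | 3 => 33517568
  | 4 => 40972288
  | 5 => 33517568
  | 6 => 25325568
  | 7 => 364544
  | _ => 0
def VY : ℕ → ℤ
  | 0 => 0
  | 1 => -13410304
  | 2 => -21536768
  | 3 => -10649600
  | 4 => 0
  | 5 => 10649600
  | 6 => 21536768
  | 7 => 13410304
  | _ => 0

def top (i j k : ℕ) : Bool :=
  bb 30 (VX i) (VY i) (VX (i+1)) (VY (i+1)) (VX j) (VY j) (VX (j+1)) (VY (j+1))
    (VX k) (VY k) (VX (k+1)) (VY (k+1))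

def neg8 (a1 a2 b1 b2 c1 c2 d1 d2 e1 e2 f1 f2 : ℤ) : Bool :=
  fI (a1*c2-a2*c1) fun ac =>
  fI (a1*d2-a2*d1) fun ad =>
  fI (b1*c2-b2*c1) fun bc =>
  fI (b1*d2-b2*d1) fun bd =>
  fI (c1*e2-c2*e1) fun ce =>
  fI (c1*f2-c2*f1) fun cf =>
  fI (d1*e2-d2*e1) fun de =>
  fI (d1*f2-d2*f1) fun df =>
  fI (e1*a2-e2*a1) fun ea =>
  fI (e1*b2-e2*b1) fun eb =>
  fI (f1*a2-f2*a1) fun fa =>
  fI (f1*b2-f2*b1) fun fb =>
  decide (ac+ce+ea ≤ 0) && decide (ac+cf+fa ≤ 0) &&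
  decide (ad+de+ea ≤ 0) && decide (ad+df+fa ≤ 0) &&
  decide (bc+ce+eb ≤ 0) && decide (bc+cf+fb ≤ 0) &&
  decide (bd+de+eb ≤ 0) && decide (bd+df+fb ≤ 0)

def topN (i j k : ℕ) : Bool :=
  neg8 (VX i) (VY i) (VX (i+1)) (VY (i+1)) (VX j) (VY j) (VX (j+1)) (VY (j+1))
    (VX k) (VY k) (VX (k+1)) (VY (k+1)) || top i j k

def allTop : Bool :=
  (List.range 8).all fun i => (List.range 8).all fun j => (List.range 8).all fun k =>
    !(decide (i ≤ j ∧ i ≤ k)) || topN i j k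

set_option maxRecDepth 100000 in
theorem allTop_true : allTop = true := by decide +kernel

/-- doubled signed area -/
noncomputable def D (a1 a2 b1 b2 c1 c2 : ℝ) : ℝ :=
  (a1*b2-a2*b1)+(b1*c2-b2*c1)+(c1*a2-c2*a1)

noncomputable def nrm (x y : ℝ) : ℝ := Real.sqrt (x^2+y^2)

theorem nrm_nonneg (x y : ℝ) : 0 ≤ nrm x y := Real.sqrt_nonneg _

theorem nrm_comm (x y x' y' : ℝ) : nrm (x - x') (y - y') = nrm (x' - x) (y' - y) := by
  unfold nrm; congr 1; ring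

/-- a real point on a segment with integer end points -/
def On (a1 a2 b1 b2 : ℤ) (x y : ℝ) : Prop :=
  ∃ s : ℝ, 0 ≤ s ∧ s ≤ 1 ∧ x = a1 + s * (b1 - a1) ∧ y = a2 + s * (b2 - a2)

theorem On_split {a1 a2 b1 b2 m1 m2 : ℤ} {x y : ℝ} (h1 : 2*m1 = a1+b1) (h2 : 2*m2 = a2+b2)
    (h : On a1 a2 b1 b2 x y) : On a1 a2 m1 m2 x y ∨ On m1 m2 b1 b2 x y := by
  obtain ⟨s, hs0, hs1, hx, hy⟩ := h
  have e1 : (2:ℝ) * m1 = a1 + b1 := by exact_mod_cast h1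
  have e2 : (2:ℝ) * m2 = a2 + b2 := by exact_mod_cast h2
  have e1' : (m1:ℝ) = (a1 + b1)/2 := by linarith
  have e2' : (m2:ℝ) = (a2 + b2)/2 := by linarith
  by_cases hs : s ≤ 1/2
  · left
    exact ⟨2*s, by linarith, by linarith, by rw [hx, e1']; ring, by rw [hy, e2']; ring⟩
  · right
    push Not at hs
    exact ⟨2*s-1, by linarith, by linarith, by rw [hx, e1']; ring, by rw [hy, e2']; ring⟩

theorem inner_le {ux uy : ℝ} (h : ux*ux+uy*uy ≤ 1099511627776) (x y : ℝ) :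
    ux*x+uy*y ≤ 1048576 * nrm x y := by
  have h0 := nrm_nonneg x y
  have h1 : (nrm x y)^2 = x^2+y^2 := Real.sq_sqrt (by positivity)
  by_contra hc
  push Not at hc
  have h2 : (ux*x+uy*y)^2 ≤ (ux*ux+uy*uy)*(x^2+y^2) := by nlinarith [sq_nonneg (ux*y-uy*x)]
  have h3 : (ux*ux+uy*uy)*(x^2+y^2) ≤ 1099511627776*(x^2+y^2) :=
    mul_le_mul_of_nonneg_right h (by positivity)
  have h4 : (1048576 * nrm x y)^2 < (ux*x+uy*y)^2 := by
    apply pow_lt_pow_left₀ hc (by positivity) (by norm_num)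
  nlinarith

theorem aff {g : ℝ → ℝ → ℝ} {a1 a2 b1 b2 x y : ℝ} (s : ℝ) (h0 : 0 ≤ s) (h1 : s ≤ 1)
    (hx : x = a1 + s * (b1 - a1)) (hy : y = a2 + s * (b2 - a2))
    (p q r : ℝ) (hg : ∀ x y, g x y = p * x + q * y + r)
    (ha : 0 ≤ g a1 a2) (hb : 0 ≤ g b1 b2) : 0 ≤ g x y := by
  have : g x y = (1 - s) * g a1 a2 + s * g b1 b2 := by
    rw [hg, hg, hg, hx, hy]; ring
  rw [this]
  have := mul_nonneg (sub_nonneg.2 h1) ha
  have := mul_nonneg h0 hb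
  linarith

theorem leaf_sound {ux uy vx vy wx wy a1 a2 b1 b2 c1 c2 d1 d2 e1 e2 f1 f2 : ℤ}
    (h : leaf ux uy vx vy wx wy a1 a2 b1 b2 c1 c2 d1 d2 e1 e2 f1 f2 = true)
    {x1 y1 x2 y2 x3 y3 : ℝ} (hA : On a1 a2 b1 b2 x1 y1) (hB : On c1 c2 d1 d2 x2 y2)
    (hC : On e1 e2 f1 f2 x3 y3) :
    250 * D x1 y1 x2 y2 x3 y3 ≤
      2498310144 * (nrm (x2-x1) (y2-y1) + nrm (x3-x2) (y3-y2) + nrm (x1-x3) (y1-y3)) := by
  simp only [leaf, fI_eq, Bool.and_eq_true, decide_eq_true_eq] at h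
  obtain ⟨⟨⟨hu, hv⟩, hw⟩, ⟨⟨⟨⟨⟨⟨⟨h1, h2⟩, h3⟩, h4⟩, h5⟩, h6⟩, h7⟩, h8⟩⟩ := h
  have hu' : (ux:ℝ)*ux+uy*uy ≤ 1099511627776 := by exact_mod_cast hu
  have hv' : (vx:ℝ)*vx+vy*vy ≤ 1099511627776 := by exact_mod_cast hv
  have hw' : (wx:ℝ)*wx+wy*wy ≤ 1099511627776 := by exact_mod_cast hw
  obtain ⟨s, s0, s1, sx, sy⟩ := hA
  obtain ⟨t, t0, t1, tx, ty⟩ := hB
  obtain ⟨q, q0, q1, qx, qy⟩ := hC
  -- the multi affine function
  let G : ℝ → ℝ → ℝ → ℝ → ℝ → ℝ → ℝ := fun a b c d e f =>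
    2498310144*(((wx:ℝ)-ux)*a+(wy-uy)*b) + 2498310144*(((ux:ℝ)-vx)*c+(uy-vy)*d)
      + 2498310144*(((vx:ℝ)-wx)*e+(vy-wy)*f)
      - 262144000 * ((a*d-b*c)+(c*f-d*e)+(e*b-f*a))
  have g1 : 0 ≤ G a1 a2 c1 c2 e1 e2 := by
    have := (Int.cast_le (R := ℝ)).2 h1
    push_cast at this; simp only [G]; linarith
  have g2 : 0 ≤ G a1 a2 c1 c2 f1 f2 := by
    have := (Int.cast_le (R := ℝ)).2 h2
    push_cast at this; simp only [G]; linarith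
  have g3 : 0 ≤ G a1 a2 d1 d2 e1 e2 := by
    have := (Int.cast_le (R := ℝ)).2 h3
    push_cast at this; simp only [G]; linarith
  have g4 : 0 ≤ G a1 a2 d1 d2 f1 f2 := by
    have := (Int.cast_le (R := ℝ)).2 h4
    push_cast at this; simp only [G]; linarith
  have g5 : 0 ≤ G b1 b2 c1 c2 e1 e2 := by
    have := (Int.cast_le (R := ℝ)).2 h5
    push_cast at this; simp only [G]; linarith
  have g6 : 0 ≤ G b1 b2 c1 c2 f1 f2 := by
    have := (Int.cast_le (R := ℝ)).2 h6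
    push_cast at this; simp only [G]; linarith
  have g7 : 0 ≤ G b1 b2 d1 d2 e1 e2 := by
    have := (Int.cast_le (R := ℝ)).2 h7
    push_cast at this; simp only [G]; linarith
  have g8 : 0 ≤ G b1 b2 d1 d2 f1 f2 := by
    have := (Int.cast_le (R := ℝ)).2 h8
    push_cast at this; simp only [G]; linarith
  -- affine in the first point
  have stepA : ∀ c d e f : ℝ, 0 ≤ G a1 a2 c d e f → 0 ≤ G b1 b2 c d e f → 0 ≤ G x1 y1 c d e f := by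
    intro c d e f ha hb
    refine aff (g := fun a b => G a b c d e f) s s0 s1 sx sy
      (2498310144*((wx:ℝ)-ux) - 262144000*(d-f)) (2498310144*((wy:ℝ)-uy) - 262144000*(e-c))
      (2498310144*(((ux:ℝ)-vx)*c+(uy-vy)*d) + 2498310144*(((vx:ℝ)-wx)*e+(vy-wy)*f)
        - 262144000*(c*f-d*e)) (fun x y => by simp only [G]; ring) ha hb
  have stepB : ∀ a b e f : ℝ, 0 ≤ G a b c1 c2 e f → 0 ≤ G a b d1 d2 e f → 0 ≤ G a b x2 y2 e f := by
    intro a b e f ha hb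
    refine aff (g := fun c d => G a b c d e f) t t0 t1 tx ty
      (2498310144*((ux:ℝ)-vx) - 262144000*(f-b)) (2498310144*((uy:ℝ)-vy) - 262144000*(a-e))
      (2498310144*(((wx:ℝ)-ux)*a+(wy-uy)*b) + 2498310144*(((vx:ℝ)-wx)*e+(vy-wy)*f)
        - 262144000*(e*b-f*a)) (fun x y => by simp only [G]; ring) ha hb
  have stepC : ∀ a b c d : ℝ, 0 ≤ G a b c d e1 e2 → 0 ≤ G a b c d f1 f2 → 0 ≤ G a b c d x3 y3 := by
    intro a b c d ha hb
    refine aff (g := fun e f => G a b c d e f) q q0 q1 qx qy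
      (2498310144*((vx:ℝ)-wx) - 262144000*(b-d)) (2498310144*((vy:ℝ)-wy) - 262144000*(c-a))
      (2498310144*(((wx:ℝ)-ux)*a+(wy-uy)*b) + 2498310144*(((ux:ℝ)-vx)*c+(uy-vy)*d)
        - 262144000*(a*d-b*c)) (fun x y => by simp only [G]; ring) ha hb
  have gg : 0 ≤ G x1 y1 x2 y2 x3 y3 := by
    apply stepC <;> apply stepB <;> apply stepA <;> assumption
  have k1 := inner_le hu' (x2-x1) (y2-y1)
  have k2 := inner_le hv' (x3-x2) (y3-y2)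
  have k3 := inner_le hw' (x1-x3) (y1-y3)
  simp only [G] at gg
  unfold D
  nlinarith [gg, k1, k2, k3]

theorem leafC_sound {a1 a2 b1 b2 c1 c2 d1 d2 e1 e2 f1 f2 : ℤ}
    (h : leafC a1 a2 b1 b2 c1 c2 d1 d2 e1 e2 f1 f2 = true)
    {x1 y1 x2 y2 x3 y3 : ℝ} (hA : On a1 a2 b1 b2 x1 y1) (hB : On c1 c2 d1 d2 x2 y2)
    (hC : On e1 e2 f1 f2 x3 y3) :
    250 * D x1 y1 x2 y2 x3 y3 ≤
      2498310144 * (nrm (x2-x1) (y2-y1) + nrm (x3-x2) (y3-y2) + nrm (x1-x3) (y1-y3)) := by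
  simp only [leafC, fI_eq, Bool.or_eq_true] at h
  rcases h with h | h
  · exact leaf_sound h hA hB hC
  · exact leaf_sound h hA hB hC

theorem bb_sound : ∀ (n : ℕ) (a1 a2 b1 b2 c1 c2 d1 d2 e1 e2 f1 f2 : ℤ),
    bb n a1 a2 b1 b2 c1 c2 d1 d2 e1 e2 f1 f2 = true →
    ∀ x1 y1 x2 y2 x3 y3 : ℝ, On a1 a2 b1 b2 x1 y1 → On c1 c2 d1 d2 x2 y2 →
    On e1 e2 f1 f2 x3 y3 →
    250 * D x1 y1 x2 y2 x3 y3 ≤
      2498310144 * (nrm (x2-x1) (y2-y1) + nrm (x3-x2) (y3-y2) + nrm (x1-x3) (y1-y3))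
  | 0, _, _, _, _, _, _, _, _, _, _, _, _, h => by simp [bb] at h
  | n+1, a1, a2, b1, b2, c1, c2, d1, d2, e1, e2, f1, f2, h => by
    intro x1 y1 x2 y2 x3 y3 hA hB hC
    rw [bb] at h
    simp only [fI_eq, Bool.or_eq_true] at h
    rcases h with h | h
    · exact leafC_sound h hA hB hC
    · split_ifs at h with i1 i2
      · simp only [Bool.and_eq_true, decide_eq_true_eq] at h
        obtain ⟨⟨⟨p, q⟩, hl⟩, hr⟩ := h
        rcases On_split p q hA with hA | hA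
        · exact bb_sound n _ _ _ _ _ _ _ _ _ _ _ _ hl _ _ _ _ _ _ hA hB hC
        · exact bb_sound n _ _ _ _ _ _ _ _ _ _ _ _ hr _ _ _ _ _ _ hA hB hC
      · simp only [Bool.and_eq_true, decide_eq_true_eq] at h
        obtain ⟨⟨⟨p, q⟩, hl⟩, hr⟩ := h
        rcases On_split p q hB with hB | hB
        · exact bb_sound n _ _ _ _ _ _ _ _ _ _ _ _ hl _ _ _ _ _ _ hA hB hC
        · exact bb_sound n _ _ _ _ _ _ _ _ _ _ _ _ hr _ _ _ _ _ _ hA hB hC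
      · simp only [Bool.and_eq_true, decide_eq_true_eq] at h
        obtain ⟨⟨⟨p, q⟩, hl⟩, hr⟩ := h
        rcases On_split p q hC with hC | hC
        · exact bb_sound n _ _ _ _ _ _ _ _ _ _ _ _ hl _ _ _ _ _ _ hA hB hC
        · exact bb_sound n _ _ _ _ _ _ _ _ _ _ _ _ hr _ _ _ _ _ _ hA hB hC

theorem neg8_sound {a1 a2 b1 b2 c1 c2 d1 d2 e1 e2 f1 f2 : ℤ}
    (h : neg8 a1 a2 b1 b2 c1 c2 d1 d2 e1 e2 f1 f2 = true)
    {x1 y1 x2 y2 x3 y3 : ℝ} (hA : On a1 a2 b1 b2 x1 y1) (hB : On c1 c2 d1 d2 x2 y2)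
    (hC : On e1 e2 f1 f2 x3 y3) : D x1 y1 x2 y2 x3 y3 ≤ 0 := by
  simp only [neg8, fI_eq, Bool.and_eq_true, decide_eq_true_eq] at h
  obtain ⟨⟨⟨⟨⟨⟨⟨h1, h2⟩, h3⟩, h4⟩, h5⟩, h6⟩, h7⟩, h8⟩ := h
  obtain ⟨s, s0, s1, sx, sy⟩ := hA
  obtain ⟨t, t0, t1, tx, ty⟩ := hB
  obtain ⟨q, q0, q1, qx, qy⟩ := hC
  let G : ℝ → ℝ → ℝ → ℝ → ℝ → ℝ → ℝ := fun a b c d e f =>
      - ((a*d-b*c)+(c*f-d*e)+(e*b-f*a))
  have g1 : 0 ≤ G a1 a2 c1 c2 e1 e2 := by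
    have := (Int.cast_le (R := ℝ)).2 h1
    push_cast at this; simp only [G]; linarith
  have g2 : 0 ≤ G a1 a2 c1 c2 f1 f2 := by
    have := (Int.cast_le (R := ℝ)).2 h2
    push_cast at this; simp only [G]; linarith
  have g3 : 0 ≤ G a1 a2 d1 d2 e1 e2 := by
    have := (Int.cast_le (R := ℝ)).2 h3
    push_cast at this; simp only [G]; linarith
  have g4 : 0 ≤ G a1 a2 d1 d2 f1 f2 := by
    have := (Int.cast_le (R := ℝ)).2 h4
    push_cast at this; simp only [G]; linarith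
  have g5 : 0 ≤ G b1 b2 c1 c2 e1 e2 := by
    have := (Int.cast_le (R := ℝ)).2 h5
    push_cast at this; simp only [G]; linarith
  have g6 : 0 ≤ G b1 b2 c1 c2 f1 f2 := by
    have := (Int.cast_le (R := ℝ)).2 h6
    push_cast at this; simp only [G]; linarith
  have g7 : 0 ≤ G b1 b2 d1 d2 e1 e2 := by
    have := (Int.cast_le (R := ℝ)).2 h7
    push_cast at this; simp only [G]; linarith
  have g8 : 0 ≤ G b1 b2 d1 d2 f1 f2 := by
    have := (Int.cast_le (R := ℝ)).2 h8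
    push_cast at this; simp only [G]; linarith
  have stepA : ∀ c d e f : ℝ, 0 ≤ G a1 a2 c d e f → 0 ≤ G b1 b2 c d e f → 0 ≤ G x1 y1 c d e f := by
    intro c d e f ha hb
    refine aff (g := fun a b => G a b c d e f) s s0 s1 sx sy
      (-(d-f)) (-(e-c)) (-(c*f-d*e)) (fun x y => by simp only [G]; ring) ha hb
  have stepB : ∀ a b e f : ℝ, 0 ≤ G a b c1 c2 e f → 0 ≤ G a b d1 d2 e f → 0 ≤ G a b x2 y2 e f := by
    intro a b e f ha hb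
    refine aff (g := fun c d => G a b c d e f) t t0 t1 tx ty
      (-(f-b)) (-(a-e)) (-(e*b-f*a)) (fun x y => by simp only [G]; ring) ha hb
  have stepC : ∀ a b c d : ℝ, 0 ≤ G a b c d e1 e2 → 0 ≤ G a b c d f1 f2 → 0 ≤ G a b c d x3 y3 := by
    intro a b c d ha hb
    refine aff (g := fun e f => G a b c d e f) q q0 q1 qx qy
      (-(b-d)) (-(c-a)) (-(a*d-b*c)) (fun x y => by simp only [G]; ring) ha hb
  have gg : 0 ≤ G x1 y1 x2 y2 x3 y3 := by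
    apply stepC <;> apply stepB <;> apply stepA <;> assumption
  simp only [G] at gg
  unfold D
  linarith

/-- point on edge number `i` (scaled coordinates) -/
def OnEdge (i : ℕ) (x y : ℝ) : Prop := On (VX i) (VY i) (VX (i+1)) (VY (i+1)) x y

theorem main_min {i j k : ℕ} (hi : i < 8) (hj : j < 8) (hk : k < 8) (h1 : i ≤ j) (h2 : i ≤ k)
    {x1 y1 x2 y2 x3 y3 : ℝ} (hA : OnEdge i x1 y1) (hB : OnEdge j x2 y2) (hC : OnEdge k x3 y3) :
    250 * D x1 y1 x2 y2 x3 y3 ≤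
      2498310144 * (nrm (x2-x1) (y2-y1) + nrm (x3-x2) (y3-y2) + nrm (x1-x3) (y1-y3)) := by
  have h := allTop_true
  unfold allTop at h
  rw [List.all_eq_true] at h
  have h := h i (List.mem_range.2 hi)
  rw [List.all_eq_true] at h
  have h := h j (List.mem_range.2 hj)
  rw [List.all_eq_true] at h
  have h := h k (List.mem_range.2 hk)
  have h3 : (i ≤ j ∧ i ≤ k) := ⟨h1, h2⟩
  simp only [h3, and_self, decide_true, Bool.not_true, Bool.false_or] at h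
  unfold topN at h
  rw [Bool.or_eq_true] at h
  rcases h with h | h
  · have := neg8_sound h hA hB hC
    have p1 := nrm_nonneg (x2-x1) (y2-y1)
    have p2 := nrm_nonneg (x3-x2) (y3-y2)
    have p3 := nrm_nonneg (x1-x3) (y1-y3)
    nlinarith
  · exact bb_sound 30 _ _ _ _ _ _ _ _ _ _ _ _ h _ _ _ _ _ _ hA hB hC

theorem D_rot (a1 a2 b1 b2 c1 c2 : ℝ) : D a1 a2 b1 b2 c1 c2 = D b1 b2 c1 c2 a1 a2 := by
  unfold D; ring

theorem D_swap (a1 a2 b1 b2 c1 c2 : ℝ) : D a1 a2 b1 b2 c1 c2 = - D b1 b2 a1 a2 c1 c2 := by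
  unfold D; ring

theorem main_pos {i j k : ℕ} (hi : i < 8) (hj : j < 8) (hk : k < 8)
    {x1 y1 x2 y2 x3 y3 : ℝ} (hA : OnEdge i x1 y1) (hB : OnEdge j x2 y2) (hC : OnEdge k x3 y3) :
    250 * D x1 y1 x2 y2 x3 y3 ≤
      2498310144 * (nrm (x2-x1) (y2-y1) + nrm (x3-x2) (y3-y2) + nrm (x1-x3) (y1-y3)) := by
  by_cases h1 : i ≤ j
  · by_cases h2 : i ≤ k
    · exact main_min hi hj hk h1 h2 hA hB hC
    · have := main_min hk hi hj (by omega) (by omega) hC hA hB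
      rw [D_rot] at this
      linarith
  · by_cases h3 : j ≤ k
    · have := main_min hj hk hi h3 (by omega) hB hC hA
      rw [← D_rot] at this
      linarith
    · have := main_min hk hi hj (by omega) (by omega) hC hA hB
      rw [D_rot] at this
      linarith

/-- The main inequality: three points on the boundary of the (scaled) octagon. -/
theorem main_abs {i j k : ℕ} (hi : i < 8) (hj : j < 8) (hk : k < 8)
    {x1 y1 x2 y2 x3 y3 : ℝ} (hA : OnEdge i x1 y1) (hB : OnEdge j x2 y2) (hC : OnEdge k x3 y3) :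
    250 * |D x1 y1 x2 y2 x3 y3| ≤
      2498310144 * (nrm (x2-x1) (y2-y1) + nrm (x3-x2) (y3-y2) + nrm (x1-x3) (y1-y3)) := by
  rcases abs_cases (D x1 y1 x2 y2 x3 y3) with ⟨h, _⟩ | ⟨h, _⟩
  · rw [h]; exact main_pos hi hj hk hA hB hC
  · rw [h]
    have := main_pos hj hi hk hB hA hC
    rw [D_swap] at this
    rw [nrm_comm x1 y1 x2 y2, nrm_comm x3 y3 x1 y1, nrm_comm x2 y2 x3 y3] at this
    linarith

end Pool.Agent.R168.TriBB
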