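import Pool.Agent.R168.TriBB

/-! Triangles in the plane, disks in triangles, and the octagon. -/

namespace Pool.Agent.R168.TriGeo

open Pool.Agent.R168.TriBB Metric Set

abbrev E := EuclideanSpace ℝ (Fin 2)

/-- doubled signed area of a triangle -/
noncomputable def area2 (A B C : E) : ℝ := D (A 0) (A 1) (B 0) (B 1) (C 0) (C 1)

theorem norm_eq_nrm (x : E) : ‖x‖ = nrm (x 0) (x 1) := by
  rw [EuclideanSpace.norm_eq, Fin.sum_univ_two]
  simp [nrm, Real.norm_eq_abs, sq_abs]

theorem inner_eq (u x : E) : inner ℝ u x = u 0 * x 0 + u 1 * x 1 := by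
  simp [PiLp.inner_apply, Fin.sum_univ_two]
  ring

theorem norm_sub_eq (x y : E) : ‖x - y‖ = nrm (x 0 - y 0) (x 1 - y 1) := by
  rw [norm_eq_nrm]; simp

theorem norm_sq2 (x : E) : ‖x‖^2 = x 0 ^2 + x 1 ^2 := by
  rw [norm_eq_nrm, nrm, Real.sq_sqrt (by positivity)]

theorem area2_comb (A B x y : E) (s t : ℝ) (h : s + t = 1) :
    area2 A B (s • x + t • y) = s * area2 A B x + t * area2 A B y := by
  simp only [area2, D, PiLp.add_apply, PiLp.smul_apply, smul_eq_mul]
  have ht : t = 1 - s := by linarith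
  subst ht; ring

theorem area2_rot (A B C : E) : area2 A B C = area2 B C A := D_rot _ _ _ _ _ _

theorem area2_swap (A B C : E) : area2 A B C = - area2 B A C := D_swap _ _ _ _ _ _

theorem area2_split (A B C c : E) :
    area2 A B c + area2 B C c + area2 C A c = area2 A B C := by
  simp only [area2, D]; ring

theorem side {A B c : E} {r : ℝ} (hr : 0 ≤ r) (h : ∀ x ∈ closedBall c r, 0 ≤ area2 A B x) :
    r * ‖B - A‖ ≤ area2 A B c := by
  by_cases hAB : ‖B - A‖ = 0
  · rw [hAB, mul_zero]
    exact h c (mem_closedBall_self hr)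
  · have hpos : 0 < ‖B - A‖ := lt_of_le_of_ne (norm_nonneg _) (Ne.symm hAB)
    have hsq := norm_sq2 (B - A)
    simp only [PiLp.sub_apply] at hsq
    let v : E := !₂[r / ‖B - A‖ * (B 1 - A 1), - (r / ‖B - A‖ * (B 0 - A 0))]
    have hv : ‖v‖ = r := by
      have h1 : ‖v‖^2 = r^2 := by
        rw [norm_sq2]
        simp only [v, PiLp.toLp_apply, Matrix.cons_val_zero, Matrix.cons_val_one]
        have : (r / ‖B - A‖ * (B 1 - A 1)) ^ 2 + (-(r / ‖B - A‖ * (B 0 - A 0))) ^ 2
          = (r / ‖B - A‖)^2 * ((B 0 - A 0)^2 + (B 1 - A 1)^2) := by ring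
        rw [this, ← hsq]
        field_simp
      exact (sq_eq_sq₀ (norm_nonneg _) hr).1 h1
    have hx := h (c + v) (by
      rw [mem_closedBall, dist_eq_norm]; simp [hv])
    have key : area2 A B (c + v) = area2 A B c - r * ‖B - A‖ := by
      have : area2 A B (c + v) = area2 A B c
          - r / ‖B - A‖ * ((B 0 - A 0)^2 + (B 1 - A 1)^2) := by
        simp only [area2, D, PiLp.add_apply, v, PiLp.toLp_apply, Matrix.cons_val_zero,
          Matrix.cons_val_one]
        ring
      rw [this, ← hsq]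
      field_simp
    linarith

theorem hull_nonneg {A B C : E} (h : 0 ≤ area2 A B C) {x : E}
    (hx : x ∈ convexHull ℝ {A, B, C}) : 0 ≤ area2 A B x := by
  have hconv : Convex ℝ {x : E | 0 ≤ area2 A B x} := by
    intro x hx y hy s t hs ht hst
    simp only [mem_setOf_eq] at *
    rw [area2_comb _ _ _ _ _ _ hst]
    positivity
  have : convexHull ℝ {A, B, C} ⊆ {x : E | 0 ≤ area2 A B x} := by
    apply convexHull_min _ hconv
    rintro y (rfl | rfl | rfl)
    · simp only [mem_setOf_eq, area2, D]; apply le_of_eq; ring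
    · simp only [mem_setOf_eq, area2, D]; apply le_of_eq; ring
    · exact h
  exact this hx

theorem perm_rot (A B C : E) : ({A, B, C} : Set E) = {B, C, A} := by
  ext x; simp only [mem_insert_iff, mem_singleton_iff]; tauto

theorem perm_swap (A B C : E) : ({A, B, C} : Set E) = {B, A, C} := by
  ext x; simp only [mem_insert_iff, mem_singleton_iff]; tauto

theorem ball_tri_pos {A B C c : E} {r : ℝ} (hr : 0 ≤ r) (hD : 0 ≤ area2 A B C)
    (h : closedBall c r ⊆ convexHull ℝ {A, B, C}) :
    r * (‖B - A‖ + ‖C - B‖ + ‖A - C‖) ≤ area2 A B C := by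
  have h1 : r * ‖B - A‖ ≤ area2 A B c := side hr fun x hx => hull_nonneg hD (h hx)
  have h2 : r * ‖C - B‖ ≤ area2 B C c := side hr fun x hx => by
    have := h hx; rw [perm_rot] at this
    exact hull_nonneg (by rw [← area2_rot]; exact hD) this
  have h3 : r * ‖A - C‖ ≤ area2 C A c := side hr fun x hx => by
    have := h hx; rw [perm_rot, perm_rot] at this
    exact hull_nonneg (by rw [← area2_rot, ← area2_rot]; exact hD) this
  have := area2_split A B C c
  linarith

theorem ball_tri {A B C c : E} {r : ℝ} (hr : 0 ≤ r)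
    (h : closedBall c r ⊆ convexHull ℝ {A, B, C}) :
    r * (‖B - A‖ + ‖C - B‖ + ‖A - C‖) ≤ |area2 A B C| := by
  rcases le_total 0 (area2 A B C) with hD | hD
  · rw [abs_of_nonneg hD]; exact ball_tri_pos hr hD h
  · rw [abs_of_nonpos hD, area2_swap, neg_neg]
    have h' := h
    rw [perm_swap] at h'
    have := ball_tri_pos hr (by rw [area2_swap]; linarith) h'
    rw [norm_sub_rev A B, norm_sub_rev C A, norm_sub_rev B C] at this
    linarith

/-- the converse: a disk with large enough distances to the sides lies in the triangle -/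
theorem ball_subset_tri {A B C c : E} {r : ℝ} (hD : 0 < area2 A B C)
    (h1 : r * ‖B - A‖ ≤ area2 A B c) (h2 : r * ‖C - B‖ ≤ area2 B C c)
    (h3 : r * ‖A - C‖ ≤ area2 C A c) : closedBall c r ⊆ convexHull ℝ {A, B, C} := by
  intro x hx
  rw [mem_closedBall, dist_eq_norm] at hx
  have cs : ∀ P Q : E, r * ‖Q - P‖ ≤ area2 P Q c → 0 ≤ area2 P Q x := by
    intro P Q h
    have e : area2 P Q x = area2 P Q c + ((Q - P) 0 * (x - c) 1 - (Q - P) 1 * (x - c) 0) := by
      simp only [area2, D, PiLp.sub_apply]; ring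
    have hb : -(‖Q - P‖ * ‖x - c‖) ≤ (Q - P) 0 * (x - c) 1 - (Q - P) 1 * (x - c) 0 := by
      have q1 := norm_sq2 (Q - P)
      have q2 := norm_sq2 (x - c)
      have q3 : ((Q - P) 0 * (x - c) 1 - (Q - P) 1 * (x - c) 0)^2 ≤ (‖Q - P‖ * ‖x - c‖)^2 := by
        rw [mul_pow, q1, q2]
        nlinarith [sq_nonneg ((Q - P) 0 * (x - c) 0 + (Q - P) 1 * (x - c) 1)]
      exact (abs_le.1 (abs_le_of_sq_le_sq q3 (by positivity))).1
    have : ‖Q - P‖ * ‖x - c‖ ≤ ‖Q - P‖ * r := mul_le_mul_of_nonneg_left hx (norm_nonneg _)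
    rw [e]; nlinarith
  have w1 := cs A B h1
  have w2 := cs B C h2
  have w3 := cs C A h3
  have hs := area2_split A B C x
  have hx' : x = (area2 B C x / area2 A B C) • A + (area2 C A x / area2 A B C) • B
      + (area2 A B x / area2 A B C) • C := by
    have hD' := hD.ne'
    have key : ∀ i : Fin 2, area2 A B C * x i =
        area2 B C x * A i + area2 C A x * B i + area2 A B x * C i := by
      intro i
      fin_cases i
      · simp only [area2, D, Fin.zero_eta, Fin.mk_one]; ring
      · simp only [area2, D, Fin.zero_eta, Fin.mk_one]; ring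
    ext i
    simp only [PiLp.add_apply, PiLp.smul_apply, smul_eq_mul]
    have := key i
    field_simp
    linarith
  rw [hx']
  have hA : A ∈ convexHull ℝ {A, B, C} := subset_convexHull ℝ _ (by simp)
  have hB : B ∈ convexHull ℝ {A, B, C} := subset_convexHull ℝ _ (by simp)
  have hC : C ∈ convexHull ℝ {A, B, C} := subset_convexHull ℝ _ (by simp)
  have hcv := convex_convexHull ℝ ({A, B, C} : Set E)
  have := hcv.sum_mem (t := Finset.univ) (w := ![area2 B C x / area2 A B C,
    area2 C A x / area2 A B C, area2 A B x / area2 A B C]) (z := ![A, B, C])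
    (by intro i _; fin_cases i
        · exact div_nonneg w2 hD.le
        · exact div_nonneg w3 hD.le
        · exact div_nonneg w1 hD.le)
    (by
      simp only [Fin.sum_univ_three, Matrix.cons_val_zero, Matrix.cons_val_one,
        Matrix.cons_val_two, Matrix.head_cons, Matrix.tail_cons, Matrix.cons_val]
      rw [← add_div, ← add_div, div_eq_one_iff_eq hD.ne']
      linarith)
    (by intro i _; fin_cases i
        · exact hA
        · exact hB
        · exact hC)
  simpa [Fin.sum_univ_three] using this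

/-! ### the octagon -/

/-- left side test for edge `i`, in scaled coordinates -/
noncomputable def ec (i : ℕ) (x y : ℝ) : ℝ :=
  ((VX (i+1) : ℝ) - VX i) * (y - VY i) - ((VY (i+1) : ℝ) - VY i) * (x - VX i)

/-- the octagon -/
noncomputable def Oct : Set E := {p | ∀ i < 8, 0 ≤ ec i (40955904 * p 0) (40955904 * p 1)}

theorem edge_of_tight {i : ℕ} (hi : i < 8) {x y : ℝ} (h : ∀ j < 8, 0 ≤ ec j x y)
    (h0 : ec i x y = 0) : OnEdge i x y := by
  have c0 := h 0 (by norm_num)
  have c1 := h 1 (by norm_num)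
  have c2 := h 2 (by norm_num)
  have c3 := h 3 (by norm_num)
  have c4 := h 4 (by norm_num)
  have c5 := h 5 (by norm_num)
  have c6 := h 6 (by norm_num)
  have c7 := h 7 (by norm_num)
  simp only [ec, VX, VY] at c0 c1 c2 c3 c4 c5 c6 c7
  refine ⟨(x - VX i) / ((VX (i+1) : ℝ) - VX i), ?_, ?_, ?_, ?_⟩ <;> interval_cases i <;>
    simp only [ec, VX, VY] at h0 ⊢ <;> norm_num at h0 c0 c1 c2 c3 c4 c5 c6 c7 ⊢ <;>
    linarith

end Pool.Agent.R168.TriGeo
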