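import Pool.Agent.R168.TriGeo

/-! The octagon: compactness, extension of triangles to the boundary, the inradius bound. -/

namespace Pool.Agent.R168.TriGeo

open Pool.Agent.R168.TriBB Metric Set Filter Topology

theorem ec_comb (i : ℕ) (x y x' y' s t : ℝ) (h : s + t = 1) :
    ec i (s * x + t * x') (s * y + t * y') = s * ec i x y + t * ec i x' y' := by
  have ht : t = 1 - s := by linarith
  subst ht
  unfold ec; ring

theorem convex_Oct : Convex ℝ Oct := by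
  intro p hp q hq s t hs ht hst i hi
  have e0 : 40955904 * (s • p + t • q : E) 0 = s * (40955904 * p 0) + t * (40955904 * q 0) := by
    simp only [PiLp.add_apply, PiLp.smul_apply, smul_eq_mul]; ring
  have e1 : 40955904 * (s • p + t • q : E) 1 = s * (40955904 * p 1) + t * (40955904 * q 1) := by
    simp only [PiLp.add_apply, PiLp.smul_apply, smul_eq_mul]; ring
  rw [e0, e1, ec_comb _ _ _ _ _ _ _ hst]
  have := hp i hi
  have := hq i hi
  positivity

theorem bound_Oct {p : E} (hp : p ∈ Oct) : -1 ≤ p 0 ∧ p 0 ≤ 1.1 ∧ -1 ≤ p 1 ∧ p 1 ≤ 1 := by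
  have c0 := hp 0 (by norm_num)
  have c1 := hp 1 (by norm_num)
  have c2 := hp 2 (by norm_num)
  have c3 := hp 3 (by norm_num)
  have c4 := hp 4 (by norm_num)
  have c5 := hp 5 (by norm_num)
  have c6 := hp 6 (by norm_num)
  have c7 := hp 7 (by norm_num)
  simp only [ec, VX, VY] at c0 c1 c2 c3 c4 c5 c6 c7
  norm_num at c0 c1 c2 c3 c4 c5 c6 c7
  refine ⟨by linarith, by linarith, by linarith, by linarith⟩

theorem continuous_coord (i : Fin 2) : Continuous fun p : E => p i := by fun_prop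

theorem closed_Oct : IsClosed Oct := by
  have : Oct = ⋂ i, ⋂ (_ : i < 8), {p : E | 0 ≤ ec i (40955904 * p 0) (40955904 * p 1)} := by
    ext p; simp [Oct]
  rw [this]
  refine isClosed_iInter fun i => isClosed_iInter fun _ => isClosed_le continuous_const ?_
  unfold ec
  have := continuous_coord 0
  have := continuous_coord 1
  fun_prop

theorem norm_Oct {p : E} (hp : p ∈ Oct) : ‖p‖ ≤ 2 := by
  obtain ⟨h1, h2, h3, h4⟩ := bound_Oct hp
  have := norm_sq2 p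
  by_contra hc
  push Not at hc
  nlinarith [norm_nonneg p]

theorem compact_Oct : IsCompact Oct := by
  refine Metric.isCompact_of_isClosed_isBounded closed_Oct ?_
  refine (Metric.isBounded_iff_subset_closedBall 0).2 ⟨2, fun p hp => ?_⟩
  rw [mem_closedBall, dist_zero_right]
  exact norm_Oct hp

/-- a boundary point of the octagon -/
def Bd (p : E) : Prop := ∃ i < 8, OnEdge i (40955904 * p 0) (40955904 * p 1)

theorem extend {A B : E} (hA : A ∈ Oct) (hne : A ≠ B) :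
    ∃ t : ℝ, 1 ≤ t ∧ B + t • (A - B) ∈ Oct ∧ Bd (B + t • (A - B)) := by
  have hpos : 0 < ‖A - B‖ := norm_pos_iff.2 (sub_ne_zero.2 hne)
  let T : Set ℝ := {t | 1 ≤ t ∧ B + t • (A - B) ∈ Oct}
  have hTc : IsClosed T := by
    have e : T = Ici 1 ∩ (fun t : ℝ => B + t • (A - B)) ⁻¹' Oct := by
      ext t; rfl
    rw [e]
    exact isClosed_Ici.inter (closed_Oct.preimage (by fun_prop))
  have hTb : Bornology.IsBounded T := by
    refine (Metric.isBounded_iff_subset_closedBall 0).2 ⟨(2 + ‖B‖) / ‖A - B‖, fun t ht => ?_⟩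
    rw [mem_closedBall, dist_zero_right]
    have h1 := norm_Oct ht.2
    have h2 : ‖t • (A - B)‖ ≤ ‖B + t • (A - B)‖ + ‖B‖ := by
      have : t • (A - B) = (B + t • (A - B)) - B := by abel
      calc ‖t • (A - B)‖ = ‖(B + t • (A - B)) - B‖ := by rw [← this]
        _ ≤ _ := norm_sub_le _ _
    rw [norm_smul] at h2
    rw [le_div_iff₀ hpos]
    linarith
  have hTK : IsCompact T := Metric.isCompact_of_isClosed_isBounded hTc hTb
  have hTn : T.Nonempty := ⟨1, le_refl _, by simpa using hA⟩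
  obtain ⟨t, ht, hmax⟩ := hTK.exists_isGreatest hTn
  refine ⟨t, ht.1, ht.2, ?_⟩
  by_contra hcon
  have hstrict : ∀ i ∈ Finset.range 8, 0 < ec i (40955904 * (B + t • (A - B)) 0)
      (40955904 * (B + t • (A - B)) 1) := by
    intro i hi
    have hi := Finset.mem_range.1 hi
    refine lt_of_le_of_ne (ht.2 i hi) fun h0 => hcon ⟨i, hi, edge_of_tight hi ht.2 h0.symm⟩
  have hev : ∀ᶠ u in 𝓝 t, ∀ i ∈ Finset.range 8, 0 < ec i (40955904 * (B + u • (A - B)) 0)
      (40955904 * (B + u • (A - B)) 1) := by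
    refine (Finset.eventually_all _).2 fun i hi => ?_
    have hc : Continuous fun u : ℝ => ec i (40955904 * (B + u • (A - B)) 0)
        (40955904 * (B + u • (A - B)) 1) := by
      unfold ec
      simp only [PiLp.add_apply, PiLp.smul_apply, smul_eq_mul]
      fun_prop
    exact hc.continuousAt.eventually (lt_mem_nhds (hstrict i hi))
  have hev2 : ∀ᶠ u in 𝓝[>] t, ∀ i ∈ Finset.range 8, 0 < ec i (40955904 * (B + u • (A - B)) 0)
      (40955904 * (B + u • (A - B)) 1) := hev.filter_mono nhdsWithin_le_nhds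
  obtain ⟨u, hu1, hu2⟩ := (hev2.and self_mem_nhdsWithin).exists
  have : u ∈ T := ⟨le_trans ht.1 (le_of_lt hu2), fun i hi => (hu1 i (Finset.mem_range.2 hi)).le⟩
  exact absurd (hmax this) (not_le.2 hu2)

theorem area2_ext (A B C : E) (t : ℝ) : area2 (B + t • (A - B)) B C = t * area2 A B C := by
  simp only [area2, D, PiLp.add_apply, PiLp.smul_apply, PiLp.sub_apply, smul_eq_mul]; ring

theorem hull_ext (A B C : E) {t : ℝ} (ht : 1 ≤ t) :
    convexHull ℝ {A, B, C} ⊆ convexHull ℝ {B + t • (A - B), B, C} := by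
  have hcv := convex_convexHull ℝ ({B + t • (A - B), B, C} : Set E)
  apply convexHull_min _ hcv
  have hB : B ∈ convexHull ℝ {B + t • (A - B), B, C} := subset_convexHull ℝ _ (by simp)
  have hA' : B + t • (A - B) ∈ convexHull ℝ {B + t • (A - B), B, C} :=
    subset_convexHull ℝ _ (by simp)
  have hC : C ∈ convexHull ℝ {B + t • (A - B), B, C} := subset_convexHull ℝ _ (by simp)
  rintro x (rfl | rfl | rfl)
  · have ht0 : 0 < t := by linarith
    have := hcv hB hA' (a := 1 - 1/t) (b := 1/t) (by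
      rw [sub_nonneg, div_le_one ht0]; exact ht) (by positivity) (by ring)
    have e : (1 - 1/t) • B + (1/t) • (B + t • (x - B)) = x := by
      rw [smul_add, smul_smul, sub_smul]
      have : 1 / t * t = 1 := by field_simp
      rw [this]; module
    rwa [e] at this
  · exact hB
  · exact hC

theorem extend_tri {A B C : E} (hA : A ∈ Oct) (hB : B ∈ Oct) (hD : area2 A B C ≠ 0) :
    ∃ A', A' ∈ Oct ∧ Bd A' ∧ area2 A' B C ≠ 0 ∧
      convexHull ℝ {A, B, C} ⊆ convexHull ℝ {A', B, C} := by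
  have hne : A ≠ B := by
    rintro rfl
    apply hD; simp only [area2, D]; ring
  obtain ⟨t, ht, h1, h2⟩ := extend hA hne
  refine ⟨_, h1, h2, ?_, hull_ext A B C ht⟩
  rw [area2_ext]
  exact mul_ne_zero (by linarith) hD

theorem extend_all {A B C : E} (hA : A ∈ Oct) (hB : B ∈ Oct) (hC : C ∈ Oct)
    (hD : area2 A B C ≠ 0) :
    ∃ A' B' C', Bd A' ∧ Bd B' ∧ Bd C' ∧ area2 A' B' C' ≠ 0 ∧
      convexHull ℝ {A, B, C} ⊆ convexHull ℝ {A', B', C'} := by
  obtain ⟨A', hA1, hA2, hA3, hA4⟩ := extend_tri hA hB hD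
  rw [area2_rot] at hA3
  obtain ⟨B', hB1, hB2, hB3, hB4⟩ := extend_tri hB hC hA3
  rw [area2_rot] at hB3
  obtain ⟨C', hC1, hC2, hC3, hC4⟩ := extend_tri hC hA1 hB3
  rw [area2_rot] at hC3
  refine ⟨A', B', C', hA2, hB2, hC2, hC3, ?_⟩
  rw [perm_rot A' B C] at hA4
  rw [perm_rot B' C A'] at hB4
  rw [perm_rot C' A' B'] at hC4
  exact (hA4.trans hB4).trans hC4

theorem nrm_scale (s x y : ℝ) (hs : 0 ≤ s) : nrm (s * x) (s * y) = s * nrm x y := by
  unfold nrm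
  rw [show (s*x)^2 + (s*y)^2 = s^2 * (x^2+y^2) by ring, Real.sqrt_mul (by positivity),
    Real.sqrt_sq hs]

theorem D_scale (s a1 a2 b1 b2 c1 c2 : ℝ) :
    D (s*a1) (s*a2) (s*b1) (s*b2) (s*c1) (s*c2) = s^2 * D a1 a2 b1 b2 c1 c2 := by
  unfold D; ring

theorem bd_ineq {A B C : E} (hA : Bd A) (hB : Bd B) (hC : Bd C) :
    |area2 A B C| ≤ 61/250 * (‖B - A‖ + ‖C - B‖ + ‖A - C‖) := by
  obtain ⟨i, hi, hA⟩ := hA
  obtain ⟨j, hj, hB⟩ := hB
  obtain ⟨k, hk, hC⟩ := hC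
  have h := main_abs hi hj hk hA hB hC
  rw [D_scale, ← mul_sub, ← mul_sub, ← mul_sub, ← mul_sub, ← mul_sub, ← mul_sub,
    nrm_scale _ _ _ (by norm_num), nrm_scale _ _ _ (by norm_num), nrm_scale _ _ _ (by norm_num),
    abs_mul, abs_of_nonneg (by norm_num : (0:ℝ) ≤ 40955904^2), ← norm_sub_eq, ← norm_sub_eq,
    ← norm_sub_eq] at h
  have e : area2 A B C = D (A 0) (A 1) (B 0) (B 1) (C 0) (C 1) := rfl
  rw [e]
  nlinarith

theorem Oct_inradius {A B C c : E} {r : ℝ} (hr : 0 ≤ r) (hD : area2 A B C ≠ 0)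
    (h : convexHull ℝ {A, B, C} ⊆ Oct) (hc : closedBall c r ⊆ convexHull ℝ {A, B, C}) :
    r ≤ 61/250 := by
  have hA : A ∈ Oct := h (subset_convexHull ℝ _ (by simp))
  have hB : B ∈ Oct := h (subset_convexHull ℝ _ (by simp))
  have hC : C ∈ Oct := h (subset_convexHull ℝ _ (by simp))
  obtain ⟨A', B', C', h1, h2, h3, h4, h5⟩ := extend_all hA hB hC hD
  have k1 := ball_tri hr (hc.trans h5)
  have k2 := bd_ineq h1 h2 h3
  have hpos : 0 < ‖B' - A'‖ := by
    rw [norm_pos_iff, sub_ne_zero]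
    rintro rfl
    apply h4; simp only [area2, D]; ring
  have h6 := norm_nonneg (C' - B')
  have h7 := norm_nonneg (A' - C')
  by_contra hcon
  push Not at hcon
  nlinarith

/-! ### width of the octagon -/

theorem cone {n1 n2 m1 m2 d1 d2 u1 u2 W : ℝ} (hW : 0 ≤ W) (h0 : 0 < n1*m2-n2*m1)
    (h1 : 0 ≤ n1*u2-n2*u1) (h2 : 0 ≤ u1*m2-u2*m1)
    (k1 : W * nrm n1 n2 ≤ n1*d1+n2*d2) (k2 : W * nrm m1 m2 ≤ m1*d1+m2*d2) :
    W * nrm u1 u2 ≤ u1*d1+u2*d2 := by
  have tri : ∀ x y x' y' : ℝ, nrm (x+x') (y+y') ≤ nrm x y + nrm x' y' := by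
    intro x y x' y'
    have := norm_add_le (!₂[x, y] : E) (!₂[x', y'] : E)
    simpa [norm_eq_nrm] using this
  have e1 : (n1*m2-n2*m1)*u1 = (u1*m2-u2*m1)*n1 + (n1*u2-n2*u1)*m1 := by ring
  have e2 : (n1*m2-n2*m1)*u2 = (u1*m2-u2*m1)*n2 + (n1*u2-n2*u1)*m2 := by ring
  have e3 : (n1*m2-n2*m1) * nrm u1 u2 ≤
      (u1*m2-u2*m1) * nrm n1 n2 + (n1*u2-n2*u1) * nrm m1 m2 := by
    rw [← nrm_scale _ _ _ h0.le, ← nrm_scale _ _ _ h1, ← nrm_scale _ _ _ h2, e1, e2]
    exact tri _ _ _ _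
  have e4 : (n1*m2-n2*m1) * (u1*d1+u2*d2) =
      (u1*m2-u2*m1) * (n1*d1+n2*d2) + (n1*u2-n2*u1)*(m1*d1+m2*d2) := by ring
  have e5 : (n1*m2-n2*m1) * (W * nrm u1 u2) ≤ (n1*m2-n2*m1) * (u1*d1+u2*d2) := by
    rw [e4]
    have a1 := mul_le_mul_of_nonneg_left k1 h2
    have a2 := mul_le_mul_of_nonneg_left k2 h1
    have a3 := mul_le_mul_of_nonneg_left e3 hW
    nlinarith
  exact le_of_mul_le_mul_left e5 h0

theorem W_le {n1 n2 d1 d2 W : ℝ} (hW : 0 ≤ W) (h : W^2 * (n1^2+n2^2) ≤ (n1*d1+n2*d2)^2)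
    (h0 : 0 ≤ n1*d1+n2*d2) : W * nrm n1 n2 ≤ n1*d1+n2*d2 := by
  have h1 : (W * nrm n1 n2)^2 ≤ (n1*d1+n2*d2)^2 := by
    rw [mul_pow, nrm, Real.sq_sqrt (by positivity)]; exact h
  exact abs_le_of_sq_le_sq' h1 h0 |>.2

noncomputable def vert (i : ℕ) : E := !₂[(VX i : ℝ)/40955904, (VY i : ℝ)/40955904]

theorem vert_mem {i : ℕ} (hi : i < 8) : vert i ∈ Oct := by
  intro j hj
  simp only [vert, ec, Matrix.cons_val_zero, Matrix.cons_val_one]
  interval_cases i <;> interval_cases j <;> norm_num [VX, VY]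

theorem cone_vert {n1 n2 m1 m2 : ℝ} {i j : ℕ} (u : E) (h0 : 0 < n1*m2-n2*m1)
    (h1 : 0 ≤ n1*u 1-n2*u 0) (h2 : 0 ≤ u 0*m2-u 1*m1)
    (k1 : n1^2+n2^2 ≤ (n1*(vert i 0 - vert j 0)+n2*(vert i 1 - vert j 1))^2)
    (k1' : 0 ≤ n1*(vert i 0 - vert j 0)+n2*(vert i 1 - vert j 1))
    (k2 : m1^2+m2^2 ≤ (m1*(vert i 0 - vert j 0)+m2*(vert i 1 - vert j 1))^2)
    (k2' : 0 ≤ m1*(vert i 0 - vert j 0)+m2*(vert i 1 - vert j 1)) :
    ‖u‖ ≤ inner ℝ u (vert i) - inner ℝ u (vert j) := by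
  have := cone (W := 1) (by norm_num) h0 h1 h2 (W_le (by norm_num) (by linarith) k1')
    (W_le (by norm_num) (by linarith) k2')
  rw [inner_eq, inner_eq, norm_eq_nrm]
  linarith

theorem width_pos (u : E) (h : 0 ≤ 3274 * u 1 - 89 * u 0) :
    ∃ i < 8, ∃ j < 8, ‖u‖ ≤ inner ℝ u (vert i) - inner ℝ u (vert j) := by
  have v : ∀ i, vert i 0 = (VX i : ℝ)/40955904 ∧ vert i 1 = (VY i : ℝ)/40955904 := by
    intro i; simp [vert]
  by_cases f1 : ((2600) * u 1 - (1820) * u 0 : ℝ) ≤ 0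
  · refine ⟨4, by norm_num, 1, by norm_num, cone_vert (n1 := 3274) (n2 := 89) (m1 := 2600) (m2 := 1820) u
      (by norm_num) (by linarith) (by linarith) ?_ ?_ ?_ ?_⟩ <;>
      rw [(v 4).1, (v 4).2, (v 1).1, (v 1).2] <;> norm_num [VX, VY]
  push Not at f1
  by_cases f2 : ((2658) * u 1 - (2000) * u 0 : ℝ) ≤ 0
  · refine ⟨5, by norm_num, 1, by norm_num, cone_vert (n1 := 2600) (n2 := 1820) (m1 := 2658) (m2 := 2000) u
      (by norm_num) (by linarith) (by linarith) ?_ ?_ ?_ ?_⟩ <;>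
      rw [(v 5).1, (v 5).2, (v 1).1, (v 1).2] <;> norm_num [VX, VY]
  push Not at f2
  by_cases f3 : ((1984) * u 1 - (6094) * u 0 : ℝ) ≤ 0
  · refine ⟨6, by norm_num, 1, by norm_num, cone_vert (n1 := 2658) (n2 := 2000) (m1 := 1984) (m2 := 6094) u
      (by norm_num) (by linarith) (by linarith) ?_ ?_ ?_ ?_⟩ <;>
      rw [(v 6).1, (v 6).2, (v 1).1, (v 1).2] <;> norm_num [VX, VY]
  push Not at f3
  by_cases f4 : ((-1984) * u 1 - (6094) * u 0 : ℝ) ≤ 0
  · refine ⟨6, by norm_num, 2, by norm_num, cone_vert (n1 := 1984) (n2 := 6094) (m1 := -1984) (m2 := 6094) u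
      (by norm_num) (by linarith) (by linarith) ?_ ?_ ?_ ?_⟩ <;>
      rw [(v 6).1, (v 6).2, (v 2).1, (v 2).2] <;> norm_num [VX, VY]
  push Not at f4
  by_cases f5 : ((-2658) * u 1 - (2000) * u 0 : ℝ) ≤ 0
  · refine ⟨7, by norm_num, 2, by norm_num, cone_vert (n1 := -1984) (n2 := 6094) (m1 := -2658) (m2 := 2000) u
      (by norm_num) (by linarith) (by linarith) ?_ ?_ ?_ ?_⟩ <;>
      rw [(v 7).1, (v 7).2, (v 2).1, (v 2).2] <;> norm_num [VX, VY]
  push Not at f5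
  by_cases f6 : ((-2600) * u 1 - (1820) * u 0 : ℝ) ≤ 0
  · refine ⟨7, by norm_num, 3, by norm_num, cone_vert (n1 := -2658) (n2 := 2000) (m1 := -2600) (m2 := 1820) u
      (by norm_num) (by linarith) (by linarith) ?_ ?_ ?_ ?_⟩ <;>
      rw [(v 7).1, (v 7).2, (v 3).1, (v 3).2] <;> norm_num [VX, VY]
  push Not at f6
  by_cases f7 : ((-3274) * u 1 - (89) * u 0 : ℝ) ≤ 0
  · refine ⟨7, by norm_num, 4, by norm_num, cone_vert (n1 := -2600) (n2 := 1820) (m1 := -3274) (m2 := 89) u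
      (by norm_num) (by linarith) (by linarith) ?_ ?_ ?_ ?_⟩ <;>
      rw [(v 7).1, (v 7).2, (v 4).1, (v 4).2] <;> norm_num [VX, VY]
  push Not at f7
  refine ⟨0, by norm_num, 4, by norm_num, cone_vert (n1 := -3274) (n2 := 89) (m1 := -3274) (m2 := -89) u
    (by norm_num) (by linarith) (by linarith) ?_ ?_ ?_ ?_⟩ <;>
    rw [(v 0).1, (v 0).2, (v 4).1, (v 4).2] <;> norm_num [VX, VY]

theorem width_all (u : E) : ∃ p ∈ Oct, ∃ q ∈ Oct, ‖u‖ ≤ inner ℝ u p - inner ℝ u q := by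
  rcases le_total 0 (3274 * u 1 - 89 * u 0) with h | h
  · obtain ⟨i, hi, j, hj, h⟩ := width_pos u h
    exact ⟨_, vert_mem hi, _, vert_mem hj, h⟩
  · have h' : 0 ≤ 3274 * (-u) 1 - 89 * (-u) 0 := by
      simp only [PiLp.neg_apply]; linarith
    obtain ⟨i, hi, j, hj, h⟩ := width_pos (-u) h'
    refine ⟨_, vert_mem hj, _, vert_mem hi, ?_⟩
    rw [norm_neg, inner_neg_left, inner_neg_left] at h
    linarith

end Pool.Agent.R168.TriGeo
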